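import Pool.Agent.W_7d29a1_Z37.CellC

/-!
STORM Z (MP_7d29a1_pr), (DL) with cells: the sum of the gains of the cells (from the regular cells which the pieces of the class meet).
(helper37)
-/

namespace Pool.Agent.W_7d29a1_Z37

open Finset MeasureTheory Pool.Agent.W_7d29a1_F Pool.Agent.W_7d29a1_Z

noncomputable section

variable {μ : Measure ℝ} {s : ℝ} {κ : Type*} {d d' : ℕ → ℤ} {P : ℕ → ℤ → Prop} {Φ : (ℕ → ℤ) → Prop} {B : Finset (ℕ × ℕ)}
  {den : ℕ × ℕ → ℤ → ℤ → Env → ℝ} {t0 : ℕ} {x0 : ℤ} {N : ℕ} {y0 : ℤ} {J : Finset ℕ} {D : ℕ → Finset ℤ}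
  {a : Finset ℕ → Env → ℝ} {Z : Finset κ} {c : κ → Cel} {t p : ℝ}

open scoped Classical in
/-- **The gain**: if every piece of the class meets at least `n` regular cells, the sum of the gains is at least `n min (t - A, M)`. -/
theorem CDat.gain (h : CDat μ s d d' P Φ B den t0 x0 N y0 J D a Z c t p) {M A : ℝ} (hM : 0 < M) (hA : A ≤ t) {S : Finset ℕ}
    {η : Env} (hR : 0 < rR μ s d d' P Φ B den t0 x0 S η) {n : ℕ}
    (hn : ∀ b ∈ B, ∀ S' ⊆ Ico b.1 b.2, ps d' b.1 (ps d t0 x0 S b.1) S' b.2 = ps d t0 x0 S b.2 →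
      CR d' P Φ b.1 (ps d t0 x0 S b.1) b.2 S' →
      n ≤ #(Z.filter fun z => η ∈ (c z).Reg μ s d' P A ∧
        (ps d' b.1 (ps d t0 x0 S b.1) S' (c z).t0, ps d' b.1 (ps d t0 x0 S b.1) S' (c z).t3) ∈ (c z).U)) :
    n * min (t - A) M ≤ ∑ z ∈ Z, min (Real.log (rR μ s d d' P Φ B den t0 x0 S η +
      rO μ s d d' P Φ B den t0 x0 (c z) S η * (max ((c z).K μ s d' η) (Real.exp t) - (c z).K μ s d' η)) -
        Real.log (rR μ s d d' P Φ B den t0 x0 S η)) M := by
  have hsum := h.sum_rU hn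
  have hm0 : 0 ≤ min (t - A) M := le_min (by linarith) hM.le
  have hterm : ∀ z ∈ Z, (if η ∈ (c z).Reg μ s d' P A then rU μ s d d' P Φ B den t0 x0 (c z) S η else 0) /
      rR μ s d d' P Φ B den t0 x0 S η * min (t - A) M ≤ min (Real.log (rR μ s d d' P Φ B den t0 x0 S η +
      rO μ s d d' P Φ B den t0 x0 (c z) S η * (max ((c z).K μ s d' η) (Real.exp t) - (c z).K μ s d' η)) -
      Real.log (rR μ s d d' P Φ B den t0 x0 S η)) M := by
    intro z hz
    have hge : 0 ≤ Real.log (rR μ s d d' P Φ B den t0 x0 S η +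
      rO μ s d d' P Φ B den t0 x0 (c z) S η * (max ((c z).K μ s d' η) (Real.exp t) - (c z).K μ s d' η)) -
      Real.log (rR μ s d d' P Φ B den t0 x0 S η) := by
      rw [sub_nonneg]
      refine Real.log_le_log hR ?_
      have h1 := mul_nonneg (h.rO_nonneg (c z) S η) (sub_nonneg.2 (le_max_left ((c z).K μ s d' η) (Real.exp t)))
      linarith
    split_ifs with hreg
    · obtain ⟨h1, h2⟩ := h.rU_le hz S hreg
      have h3 := h.rU_nonneg (c z) S η
      have h4 := h.rU_le_rR (c z) S η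
      have h5 := gain_num (t := t) hR (h.rO_nonneg (c z) S η) h3 h4 h1 h2
      have hth0 : 0 ≤ rU μ s d d' P Φ B den t0 x0 (c z) S η / rR μ s d d' P Φ B den t0 x0 S η := div_nonneg h3 hR.le
      have hth1 : rU μ s d d' P Φ B den t0 x0 (c z) S η / rR μ s d d' P Φ B den t0 x0 S η ≤ 1 := (div_le_one hR).2 h4
      refine le_min ?_ ?_
      · exact (mul_le_mul_of_nonneg_left (min_le_left _ _) hth0).trans h5
      · exact (mul_le_of_le_one_left hm0 hth1).trans (min_le_right _ _)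
    · rw [zero_div, zero_mul]
      exact le_min hge hM.le
  refine le_trans ?_ (sum_le_sum hterm)
  rw [← sum_mul, ← sum_div]
  refine mul_le_mul_of_nonneg_right ?_ hm0
  rw [le_div_iff₀ hR]
  exact hsum

end

end Pool.Agent.W_7d29a1_Z37
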