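import Pool.Agent.W_7d29a1_Z.Ker

/-!
STORM Z (MP_7d29a1_pr), (DL) with cells: kernels of the pieces which satisfy a condition at each time, the decomposition at a cell,
classes with a condition on the layer positions. (helper37)
-/

namespace Pool.Agent.W_7d29a1_Z37

open Finset Pool.Agent.W_7d29a1_F Pool.Agent.W_7d29a1_Z

noncomputable section

variable {μ : MeasureTheory.Measure ℝ} {s : ℝ}

/-- The piece started in `x` at the time `t1` satisfies the condition `P` at all the times in `(t1, t2]`. -/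
def InP (d : ℕ → ℤ) (P : ℕ → ℤ → Prop) (t1 : ℕ) (x : ℤ) (t2 : ℕ) (S : Finset ℕ) : Prop :=
  ∀ t ∈ Ioc t1 t2, P t (ps d t1 x S t)

/-- The kernel of the pieces which satisfy the condition `P`. -/
def KP (μ : MeasureTheory.Measure ℝ) (s : ℝ) (d : ℕ → ℤ) (P : ℕ → ℤ → Prop) (η : Env) (t1 : ℕ) (x : ℤ)
    (t2 : ℕ) (y : ℤ) : ℝ := Kc μ s d (InP d P t1 x t2) η t1 x t2 y

open scoped Classical in
theorem Kc_eq_sum (d : ℕ → ℤ) (C : Finset ℕ → Prop) (η : Env) (t1 : ℕ) (x : ℤ) (t2 : ℕ) (y : ℤ) :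
    Kc μ s d C η t1 x t2 y =
      ∑ S ∈ (Ico t1 t2).powerset, pw μ s d η t1 x t2 S * (if ps d t1 x S t2 = y ∧ C S then (1 : ℝ) else 0) := by
  unfold Kc pcs
  rw [filter_filter, sum_filter]
  refine sum_congr rfl fun S _ => ?_
  split_ifs <;> simp

theorem Kc_congr_class (d : ℕ → ℤ) {C C' : Finset ℕ → Prop} (η : Env) (t1 : ℕ) (x : ℤ) (t2 : ℕ) (y : ℤ)
    (h : ∀ S, S ⊆ Ico t1 t2 → ps d t1 x S t2 = y → (C S ↔ C' S)) :
    Kc μ s d C η t1 x t2 y = Kc μ s d C' η t1 x t2 y := by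
  classical
  unfold Kc
  refine sum_congr ?_ fun _ _ => rfl
  ext S
  simp only [mem_filter, mem_pcs]
  constructor
  · rintro ⟨⟨h1, h2⟩, h3⟩
    exact ⟨⟨h1, h2⟩, (h S h1 h2).1 h3⟩
  · rintro ⟨⟨h1, h2⟩, h3⟩
    exact ⟨⟨h1, h2⟩, (h S h1 h2).2 h3⟩

open scoped Classical in
/-- A class which is a product at the point `(t2, m)`. -/
theorem Kc_prod (d : ℕ → ℤ) (η : Env) {t1 t2 t3 : ℕ} (x z m : ℤ) (h1 : t1 ≤ t2) (h2 : t2 ≤ t3)
    {C C1 C2 : Finset ℕ → Prop}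
    (hC : ∀ S S' : Finset ℕ, S ⊆ Ico t1 t2 → S' ⊆ Ico t2 t3 → (C (S ∪ S') ↔ C1 S ∧ ps d t1 x S t2 = m ∧ C2 S')) :
    Kc μ s d C η t1 x t3 z = Kc μ s d C1 η t1 x t2 m * Kc μ s d C2 η t2 m t3 z := by
  rw [Kc_eq_sum d C, sum_pw_cut d η x h1 h2, Kc_eq_sum d C1, sum_mul]
  refine sum_congr rfl fun S hS => ?_
  rw [mem_powerset] at hS
  rw [mul_assoc]
  congr 1
  by_cases hm : ps d t1 x S t2 = m
  · by_cases hc : C1 S
    · rw [if_pos ⟨hm, hc⟩, one_mul, Kc_eq_sum d C2, hm]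
      refine sum_congr rfl fun S' hS' => ?_
      rw [mem_powerset] at hS'
      congr 1
      have e1 : ps d t1 x (S ∪ S') t3 = ps d t2 m S' t3 := by
        rw [ps_union_right d x hS hS' h1 h2 le_rfl, hm]
      rw [e1]
      have e2 := hC S S' hS hS'
      by_cases h3 : C2 S'
      · have h4 : C (S ∪ S') := e2.2 ⟨hc, hm, h3⟩
        simp [h3, h4]
      · have h4 : ¬ C (S ∪ S') := fun h => h3 (e2.1 h).2.2
        simp [h3, h4]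
    · rw [if_neg fun h => hc h.2, zero_mul]
      refine sum_eq_zero fun S' hS' => ?_
      rw [mem_powerset] at hS'
      rw [if_neg fun h => hc ((hC S S' hS hS').1 h.2).1, mul_zero]
  · rw [if_neg fun h => hm h.1, zero_mul]
    refine sum_eq_zero fun S' hS' => ?_
    rw [mem_powerset] at hS'
    rw [if_neg fun h => hm ((hC S S' hS hS').1 h.2).2.1, mul_zero]

theorem InP_union {d : ℕ → ℤ} {P : ℕ → ℤ → Prop} {t1 t2 t3 : ℕ} {x : ℤ} (h1 : t1 ≤ t2) (h2 : t2 ≤ t3)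
    {S S' : Finset ℕ} (hS : S ⊆ Ico t1 t2) (hS' : S' ⊆ Ico t2 t3) :
    InP d P t1 x t3 (S ∪ S') ↔ InP d P t1 x t2 S ∧ InP d P t2 (ps d t1 x S t2) t3 S' := by
  constructor
  · intro h
    refine ⟨fun t ht => ?_, fun t ht => ?_⟩
    · rw [mem_Ioc] at ht
      have := h t (mem_Ioc.2 ⟨ht.1, ht.2.trans h2⟩)
      rwa [ps_union_left d x hS hS' ht.2] at this
    · rw [mem_Ioc] at ht
      have := h t (mem_Ioc.2 ⟨lt_of_le_of_lt h1 ht.1, ht.2⟩)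
      rwa [ps_union_right d x hS hS' h1 ht.1.le ht.2] at this
  · rintro ⟨ha, hb⟩ t ht
    rw [mem_Ioc] at ht
    rcases le_or_gt t t2 with h | h
    · rw [ps_union_left d x hS hS' h]
      exact ha t (mem_Ioc.2 ⟨ht.1, h⟩)
    · rw [ps_union_right d x hS hS' h1 h.le ht.2]
      exact hb t (mem_Ioc.2 ⟨h, ht.2⟩)

theorem KP_nonneg (d : ℕ → ℤ) (P : ℕ → ℤ → Prop) (η : Env) (t1 : ℕ) (x : ℤ) (t2 : ℕ) (y : ℤ) :
    0 ≤ KP μ s d P η t1 x t2 y := Kc_nonneg _ _ _ _ _ _ _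

open scoped Classical in
theorem KP_cut (d : ℕ → ℤ) (P : ℕ → ℤ → Prop) (η : Env) {t1 t2 t3 : ℕ} (x z : ℤ) (h1 : t1 ≤ t2)
    (h2 : t2 ≤ t3) :
    KP μ s d P η t1 x t3 z = ∑ S ∈ (Ico t1 t2).powerset, pw μ s d η t1 x t2 S *
      (if InP d P t1 x t2 S then KP μ s d P η t2 (ps d t1 x S t2) t3 z else 0) := by
  unfold KP
  rw [Kc_eq_sum, sum_pw_cut d η x h1 h2]
  refine sum_congr rfl fun S hS => ?_
  rw [mem_powerset] at hS
  congr 1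
  split_ifs with hw
  · rw [Kc_eq_sum]
    refine sum_congr rfl fun S' hS' => ?_
    rw [mem_powerset] at hS'
    congr 1
    rw [ps_union_right d x hS hS' h1 h2 le_rfl]
    have e2 := InP_union (P := P) (x := x) (d := d) h1 h2 hS hS'
    by_cases h3 : InP d P t2 (ps d t1 x S t2) t3 S'
    · have h4 := e2.2 ⟨hw, h3⟩
      simp [h3, h4]
    · have h4 : ¬ InP d P t1 x t3 (S ∪ S') := fun h => h3 (e2.1 h).2
      simp [h3, h4]
  · refine sum_eq_zero fun S' hS' => ?_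
    rw [mem_powerset] at hS'
    rw [if_neg fun h => hw ((InP_union h1 h2 hS hS').1 h.2).1, mul_zero]

open scoped Classical in
theorem KP_swap (d : ℕ → ℤ) (P : ℕ → ℤ → Prop) (η : Env) (t1 : ℕ) (x : ℤ) (t2 : ℕ) (Y : Finset ℤ)
    (f : ℤ → ℝ) :
    ∑ y ∈ Y, KP μ s d P η t1 x t2 y * f y = ∑ S ∈ (Ico t1 t2).powerset, pw μ s d η t1 x t2 S *
      (if InP d P t1 x t2 S ∧ ps d t1 x S t2 ∈ Y then f (ps d t1 x S t2) else 0) := by
  have e1 : ∀ y ∈ Y, KP μ s d P η t1 x t2 y * f y = ∑ S ∈ (Ico t1 t2).powerset, pw μ s d η t1 x t2 S *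
      (if ps d t1 x S t2 = y ∧ InP d P t1 x t2 S then f y else 0) := by
    intro y _
    unfold KP
    rw [Kc_eq_sum, sum_mul]
    refine sum_congr rfl fun S _ => ?_
    rw [mul_assoc]
    congr 1
    split_ifs <;> simp
  rw [sum_congr rfl e1, sum_comm]
  refine sum_congr rfl fun S _ => ?_
  rw [← mul_sum]
  congr 1
  by_cases hw : InP d P t1 x t2 S
  · simp only [hw, and_true, true_and]
    rw [sum_ite_eq]
  · simp [hw]

/-- The range of the positions at the time `t2`. -/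
def Rng (d : ℕ → ℤ) (t1 : ℕ) (x : ℤ) (t2 : ℕ) : Finset ℤ := Icc (x + (d t2 - d t1)) (x + (d t2 - d t1) + ((t2 - t1 : ℕ) : ℤ))

theorem ps_mem_Rng (d : ℕ → ℤ) (t1 : ℕ) (x : ℤ) (t2 : ℕ) (S : Finset ℕ) : ps d t1 x S t2 ∈ Rng d t1 x t2 := by
  unfold ps Rng
  have h1 : (S ∩ Ico t1 t2).card ≤ t2 - t1 := by
    refine (card_le_card inter_subset_right).trans ?_
    rw [Nat.card_Ico]
  have h2 : ((S ∩ Ico t1 t2).card : ℤ) ≤ ((t2 - t1 : ℕ) : ℤ) := by exact_mod_cast h1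
  rw [mem_Icc]
  constructor
  · have : (0 : ℤ) ≤ ((S ∩ Ico t1 t2).card : ℤ) := Int.natCast_nonneg _
    linarith
  · linarith

/-- Chapman - Kolmogorov. -/
theorem KP_sum (d : ℕ → ℤ) (P : ℕ → ℤ → Prop) (η : Env) {t1 t2 t3 : ℕ} (x z : ℤ) (h1 : t1 ≤ t2)
    (h2 : t2 ≤ t3) :
    KP μ s d P η t1 x t3 z = ∑ y ∈ Rng d t1 x t2, KP μ s d P η t1 x t2 y * KP μ s d P η t2 y t3 z := by
  classical
  rw [KP_cut d P η x z h1 h2, KP_swap]
  refine sum_congr rfl fun S _ => ?_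
  congr 1
  simp only [ps_mem_Rng, and_true]

/-- Chapman - Kolmogorov as an inequality. -/
theorem KP_sum_le (d : ℕ → ℤ) (P : ℕ → ℤ → Prop) (η : Env) {t1 t2 t3 : ℕ} (x z : ℤ) (h1 : t1 ≤ t2)
    (h2 : t2 ≤ t3) (Y : Finset ℤ) :
    ∑ y ∈ Y, KP μ s d P η t1 x t2 y * KP μ s d P η t2 y t3 z ≤ KP μ s d P η t1 x t3 z := by
  classical
  rw [KP_cut d P η x z h1 h2, KP_swap]
  refine sum_le_sum fun S _ => ?_
  refine mul_le_mul_of_nonneg_left ?_ (pw_nonneg _ _ _ _ _ _)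
  by_cases h3 : InP d P t1 x t2 S
  · by_cases h4 : ps d t1 x S t2 ∈ Y
    · rw [if_pos ⟨h3, h4⟩, if_pos h3]
    · rw [if_neg fun h => h4 h.2, if_pos h3]
      exact KP_nonneg _ _ _ _ _ _ _
  · rw [if_neg fun h => h3 h.1, if_neg h3]

theorem KP_mul_le (d : ℕ → ℤ) (P : ℕ → ℤ → Prop) (η : Env) {t1 t2 t3 : ℕ} (x y z : ℤ) (h1 : t1 ≤ t2)
    (h2 : t2 ≤ t3) : KP μ s d P η t1 x t2 y * KP μ s d P η t2 y t3 z ≤ KP μ s d P η t1 x t3 z := by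
  have h := KP_sum_le (μ := μ) (s := s) d P η x z h1 h2 {y}
  rwa [sum_singleton] at h

/-! ### The kernel of a cell -/

/-- The kernel of the pieces from `(t1, b)` to `(t2, e)` in the cell. -/
def Kcell (μ : MeasureTheory.Measure ℝ) (s : ℝ) (d : ℕ → ℤ) (Y : ℕ → Finset ℤ) (η : Env) (t1 : ℕ) (b : ℤ) (t2 : ℕ)
    (e : ℤ) : ℝ := KP μ s d (fun t y => y ∈ Y t) η t1 b t2 e

theorem Kcell_nonneg (d : ℕ → ℤ) (Y : ℕ → Finset ℤ) (η : Env) (t1 : ℕ) (b : ℤ) (t2 : ℕ) (e : ℤ) :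
    0 ≤ Kcell μ s d Y η t1 b t2 e := KP_nonneg _ _ _ _ _ _ _

/-- The pieces which go through the cell. -/
def Th (d : ℕ → ℤ) (P : ℕ → ℤ → Prop) (Y : ℕ → Finset ℤ) (τ1 : ℕ) (x : ℤ) (t1 : ℕ) (b : ℤ) (t2 : ℕ)
    (e : ℤ) (τ2 : ℕ) (S : Finset ℕ) : Prop :=
  InP d P τ1 x τ2 S ∧ ps d τ1 x S t1 = b ∧ ps d τ1 x S t2 = e ∧ ∀ t ∈ Ioc t1 t2, ps d τ1 x S t ∈ Y t

/-- **The kernel of the pieces through the cell.** -/
theorem Kc_Th (d : ℕ → ℤ) {P : ℕ → ℤ → Prop} {Y : ℕ → Finset ℤ} (η : Env) {τ1 t1 t2 τ2 : ℕ} (x b e z : ℤ)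
    (h1 : τ1 ≤ t1) (h2 : t1 ≤ t2) (h3 : t2 ≤ τ2) (hY : ∀ t ∈ Ioc t1 t2, ∀ y ∈ Y t, P t y) :
    Kc μ s d (Th d P Y τ1 x t1 b t2 e τ2) η τ1 x τ2 z =
      KP μ s d P η τ1 x t1 b * (Kcell μ s d Y η t1 b t2 e * KP μ s d P η t2 e τ2 z) := by
  rw [Kc_prod d η (C1 := InP d P τ1 x t1) (C2 := fun S' => InP d P t1 b τ2 S' ∧ ps d t1 b S' t2 = e ∧
    ∀ t ∈ Ioc t1 t2, ps d t1 b S' t ∈ Y t) x z b h1 (h2.trans h3)]
  · congr 1
    refine Kc_prod d η (C1 := InP d (fun t y => y ∈ Y t) t1 b t2) (C2 := InP d P t2 e τ2) b z e h2 h3 fun S S' hS hS' => ?_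
    have e1 : ps d t1 b (S ∪ S') t2 = ps d t1 b S t2 := ps_union_left d b hS hS' le_rfl
    have e2 := InP_union (P := P) (x := b) (d := d) h2 h3 hS hS'
    constructor
    · rintro ⟨ha, hb, hc⟩
      rw [e1] at hb
      refine ⟨fun t ht => ?_, hb, ?_⟩
      · have := hc t ht
        rwa [ps_union_left d b hS hS' (mem_Ioc.1 ht).2] at this
      · have := (e2.1 ha).2
        rwa [hb] at this
    · rintro ⟨ha, hb, hc⟩
      refine ⟨e2.2 ⟨fun t ht' => hY t ht' _ (ha t ht'), ?_⟩, by rw [e1, hb], fun t ht => ?_⟩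
      · rw [hb]
        exact hc
      · rw [ps_union_left d b hS hS' (mem_Ioc.1 ht).2]
        exact ha t ht
  · intro S S' hS hS'
    have e1 : ps d τ1 x (S ∪ S') t1 = ps d τ1 x S t1 := ps_union_left d x hS hS' le_rfl
    have e2 := InP_union (P := P) (x := x) (d := d) h1 (h2.trans h3) hS hS'
    constructor
    · rintro ⟨ha, hb, hc, hd⟩
      rw [e1] at hb
      refine ⟨(e2.1 ha).1, hb, ?_, ?_, fun t ht => ?_⟩
      · have := (e2.1 ha).2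
        rwa [hb] at this
      · rwa [ps_union_right d x hS hS' h1 h2 h3, hb] at hc
      · have := hd t ht
        rw [mem_Ioc] at ht
        rwa [ps_union_right d x hS hS' h1 ht.1.le (ht.2.trans h3), hb] at this
    · rintro ⟨ha, hb, hc, hd, he⟩
      refine ⟨e2.2 ⟨ha, by rw [hb]; exact hc⟩, by rw [e1, hb], ?_, fun t ht => ?_⟩
      · rw [ps_union_right d x hS hS' h1 h2 h3, hb, hd]
      · have := he t ht
        rw [mem_Ioc] at ht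
        rwa [ps_union_right d x hS hS' h1 ht.1.le (ht.2.trans h3), hb]

/-- The cell is part of the window. -/
theorem Kcell_le_KP (d : ℕ → ℤ) {P : ℕ → ℤ → Prop} {Y : ℕ → Finset ℤ} (η : Env) {t1 t2 : ℕ} (b e : ℤ)
    (hY : ∀ t ∈ Ioc t1 t2, ∀ y ∈ Y t, P t y) : Kcell μ s d Y η t1 b t2 e ≤ KP μ s d P η t1 b t2 e := by
  classical
  unfold Kcell KP Kc
  refine sum_le_sum_of_subset_of_nonneg (fun S hS => ?_) fun _ _ _ => pw_nonneg _ _ _ _ _ _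
  rw [mem_filter] at hS ⊢
  exact ⟨hS.1, fun t ht' => hY t ht' _ (hS.2 t ht')⟩

/-! ### Dependence and monotonicity -/

theorem Kc_congr_env (d : ℕ → ℤ) (C : Finset ℕ → Prop) {η η' : Env} (t1 : ℕ) (x : ℤ) (t2 : ℕ) (y : ℤ)
    (h : ∀ S, C S → S ⊆ Ico t1 t2 → ∀ t ∈ Ioc t1 t2, η ((t : ℤ), ps d t1 x S t) = η' ((t : ℤ), ps d t1 x S t)) :
    Kc μ s d C η t1 x t2 y = Kc μ s d C η' t1 x t2 y := by
  classical
  unfold Kc
  refine sum_congr rfl fun S hS => ?_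
  rw [mem_filter, mem_pcs] at hS
  exact pw_env d t1 x t2 S (h S hS.2 hS.1.1)

theorem Kc_mono (d : ℕ → ℤ) (C : Finset ℕ → Prop) {η η' : Env} (t1 : ℕ) (x : ℤ) (t2 : ℕ) (y : ℤ) (h : ∀ p, η p ≤ η' p) :
    Kc μ s d C η t1 x t2 y ≤ Kc μ s d C η' t1 x t2 y :=
  sum_le_sum fun S _ => pw_mono d t1 x t2 S h

/-- Dependence on the rows. -/
theorem Kc_rows (d : ℕ → ℤ) (C : Finset ℕ → Prop) {η η' : Env} (t1 : ℕ) (x : ℤ) (t2 : ℕ) (y : ℤ)
    (h : ∀ t ∈ Ioc t1 t2, ∀ y : ℤ, η ((t : ℤ), y) = η' ((t : ℤ), y)) :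
    Kc μ s d C η t1 x t2 y = Kc μ s d C η' t1 x t2 y :=
  Kc_congr_env d C t1 x t2 y fun _ _ _ t ht => h t ht _

/-- The kernel of the cell depends on the sites of the cell only. -/
theorem Kcell_env (d : ℕ → ℤ) (Y : ℕ → Finset ℤ) {η η' : Env} (t1 : ℕ) (b : ℤ) (t2 : ℕ) (e : ℤ)
    (h : ∀ v ∈ sJ (Ioc t1 t2) Y, η v = η' v) : Kcell μ s d Y η t1 b t2 e = Kcell μ s d Y η' t1 b t2 e :=
  Kc_congr_env d _ t1 b t2 e fun _ hS _ t ht => h _ (mem_sJ.2 ⟨ht, hS t ht⟩)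

theorem Kc_mono_class (d : ℕ → ℤ) {C C' : Finset ℕ → Prop} (η : Env) (t1 : ℕ) (x : ℤ) (t2 : ℕ) (y : ℤ)
    (h : ∀ S, C S → C' S) : Kc μ s d C η t1 x t2 y ≤ Kc μ s d C' η t1 x t2 y := by
  classical
  unfold Kc
  refine sum_le_sum_of_subset_of_nonneg (fun S hS => ?_) fun _ _ _ => pw_nonneg _ _ _ _ _ _
  rw [mem_filter] at hS ⊢
  exact ⟨hS.1, h S hS.2⟩

/-- Splitting a class. -/
theorem Kc_split (d : ℕ → ℤ) (C C' : Finset ℕ → Prop) (η : Env) (t1 : ℕ) (x : ℤ) (t2 : ℕ) (y : ℤ)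
    (h : ∀ S, C' S → C S) :
    Kc μ s d C η t1 x t2 y = Kc μ s d C' η t1 x t2 y + Kc μ s d (fun S => C S ∧ ¬ C' S) η t1 x t2 y := by
  classical
  unfold Kc
  rw [← sum_filter_add_sum_filter_not ((pcs d t1 x t2 y).filter C) C', filter_filter, filter_filter]
  refine congrArg₂ (· + ·) (sum_congr ?_ fun _ _ => rfl) (sum_congr ?_ fun _ _ => rfl)
  · ext S
    simp only [mem_filter]
    constructor
    · rintro ⟨h1, h2, h3⟩
      exact ⟨h1, h3⟩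
    · rintro ⟨h1, h3⟩
      exact ⟨h1, h S h3, h3⟩
  · ext S
    simp only [mem_filter]

/-! ### The outer weight of a layer -/

/-- The positions of a piece with the layer `(t0, t3)` left out. -/
def glue (d : ℕ → ℤ) (τ1 : ℕ) (x : ℤ) (t0 t3 : ℕ) (v : ℤ) (S1 S3 : Finset ℕ) (t : ℕ) : ℤ :=
  if t ≤ t0 then ps d τ1 x S1 t else ps d t3 v S3 t

open scoped Classical in
/-- The outer weight: the pieces from `(τ1, x)` to `(t0, u)` and from `(t3, v)` to `(τ2, y)` with the condition `P` and with the joint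
condition `Φ`. -/
def Gout (μ : MeasureTheory.Measure ℝ) (s : ℝ) (d : ℕ → ℤ) (P : ℕ → ℤ → Prop) (Φ : (ℕ → ℤ) → Prop) (η : Env)
    (τ1 : ℕ) (x : ℤ) (t0 : ℕ) (u : ℤ) (t3 : ℕ) (v : ℤ) (τ2 : ℕ) (y : ℤ) : ℝ :=
  ∑ S1 ∈ (Ico τ1 t0).powerset, ∑ S3 ∈ (Ico t3 τ2).powerset,
    pw μ s d η τ1 x t0 S1 * pw μ s d η t3 v τ2 S3 *
      (if (ps d τ1 x S1 t0 = u ∧ InP d P τ1 x t0 S1) ∧ (ps d t3 v S3 τ2 = y ∧ InP d P t3 v τ2 S3) ∧
        Φ (glue d τ1 x t0 t3 v S1 S3) then (1 : ℝ) else 0)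

theorem Gout_nonneg (d : ℕ → ℤ) (P : ℕ → ℤ → Prop) (Φ : (ℕ → ℤ) → Prop) (η : Env)
    (τ1 : ℕ) (x : ℤ) (t0 : ℕ) (u : ℤ) (t3 : ℕ) (v : ℤ) (τ2 : ℕ) (y : ℤ) :
    0 ≤ Gout μ s d P Φ η τ1 x t0 u t3 v τ2 y := by
  classical
  unfold Gout
  refine sum_nonneg fun S1 _ => sum_nonneg fun S3 _ => ?_
  refine mul_nonneg (mul_nonneg (pw_nonneg _ _ _ _ _ _) (pw_nonneg _ _ _ _ _ _)) ?_
  split_ifs
  · exact zero_le_one
  · exact le_rfl

/-- The outer weight does not depend on the rows of the layer. -/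
theorem Gout_env (d : ℕ → ℤ) (P : ℕ → ℤ → Prop) (Φ : (ℕ → ℤ) → Prop) {η η' : Env}
    (τ1 : ℕ) (x : ℤ) (t0 : ℕ) (u : ℤ) (t3 : ℕ) (v : ℤ) (τ2 : ℕ) (y : ℤ)
    (h : ∀ t : ℕ, (t ≤ t0 ∨ t3 < t) → ∀ y : ℤ, η ((t : ℤ), y) = η' ((t : ℤ), y)) :
    Gout μ s d P Φ η τ1 x t0 u t3 v τ2 y = Gout μ s d P Φ η' τ1 x t0 u t3 v τ2 y := by
  classical
  unfold Gout
  refine sum_congr rfl fun S1 _ => sum_congr rfl fun S3 _ => ?_
  rw [pw_env (η := η) (η' := η') d τ1 x t0 S1 fun t ht => h t (Or.inl (mem_Ioc.1 ht).2) _,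
    pw_env (η := η) (η' := η') d t3 v τ2 S3 fun t ht => h t (Or.inr (mem_Ioc.1 ht).1) _]

/-- The condition does not look inside the layer. -/
def Blind (Φ : (ℕ → ℤ) → Prop) (t0 t3 : ℕ) : Prop :=
  ∀ f g : ℕ → ℤ, (∀ t, t ≤ t0 ∨ t3 ≤ t → f t = g t) → (Φ f ↔ Φ g)

open scoped Classical in
/-- **The decomposition at a layer.** A class which is: `P` outside the layer, the joint condition `Φ`, and a condition `Ψ` on the
start of the layer and the piece in the layer. -/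
theorem Kc_layer (d : ℕ → ℤ) (η : Env) {τ1 t0 t3 τ2 : ℕ} (x y : ℤ) (h1 : τ1 ≤ t0) (h2 : t0 ≤ t3) (h3 : t3 ≤ τ2)
    {P : ℕ → ℤ → Prop} {Φ : (ℕ → ℤ) → Prop} {C : Finset ℕ → Prop} {Ψ : ℤ → Finset ℕ → Prop}
    (hC : ∀ S1 S2 S3 : Finset ℕ, S1 ⊆ Ico τ1 t0 → S2 ⊆ Ico t0 t3 → S3 ⊆ Ico t3 τ2 →
      (C (S1 ∪ (S2 ∪ S3)) ↔ InP d P τ1 x t0 S1 ∧ InP d P t3 (ps d t0 (ps d τ1 x S1 t0) S2 t3) τ2 S3 ∧
        Φ (glue d τ1 x t0 t3 (ps d t0 (ps d τ1 x S1 t0) S2 t3) S1 S3) ∧ Ψ (ps d τ1 x S1 t0) S2)) :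
    Kc μ s d C η τ1 x τ2 y = ∑ u ∈ Rng d τ1 x t0, ∑ v ∈ Rng d τ1 x t3,
      Gout μ s d P Φ η τ1 x t0 u t3 v τ2 y * Kc μ s d (Ψ u) η t0 u t3 v := by
  have hRv : ∀ S1 S2 : Finset ℕ, S1 ⊆ Ico τ1 t0 → S2 ⊆ Ico t0 t3 →
      ps d t0 (ps d τ1 x S1 t0) S2 t3 ∈ Rng d τ1 x t3 := by
    intro S1 S2 hS1 hS2
    rw [← ps_union_right d x hS1 hS2 h1 h2 le_rfl]
    exact ps_mem_Rng d τ1 x t3 _
  -- the left side
  have eL : Kc μ s d C η τ1 x τ2 y = ∑ S1 ∈ (Ico τ1 t0).powerset, ∑ S2 ∈ (Ico t0 t3).powerset,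
      ∑ S3 ∈ (Ico t3 τ2).powerset, pw μ s d η τ1 x t0 S1 * (pw μ s d η t0 (ps d τ1 x S1 t0) t3 S2 *
        (pw μ s d η t3 (ps d t0 (ps d τ1 x S1 t0) S2 t3) τ2 S3 *
          (if ps d t3 (ps d t0 (ps d τ1 x S1 t0) S2 t3) S3 τ2 = y ∧ (InP d P τ1 x t0 S1 ∧
            InP d P t3 (ps d t0 (ps d τ1 x S1 t0) S2 t3) τ2 S3 ∧
            Φ (glue d τ1 x t0 t3 (ps d t0 (ps d τ1 x S1 t0) S2 t3) S1 S3) ∧ Ψ (ps d τ1 x S1 t0) S2)
            then (1 : ℝ) else 0))) := by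
    rw [Kc_eq_sum, sum_pw_cut d η x h1 (h2.trans h3)]
    refine sum_congr rfl fun S1 hS1 => ?_
    rw [mem_powerset] at hS1
    rw [sum_pw_cut d η _ h2 h3, mul_sum]
    refine sum_congr rfl fun S2 hS2 => ?_
    rw [mem_powerset] at hS2
    rw [mul_sum, mul_sum]
    refine sum_congr rfl fun S3 hS3 => ?_
    rw [mem_powerset] at hS3
    have hS23 : S2 ∪ S3 ⊆ Ico t0 τ2 := by
      refine union_subset (hS2.trans (Ico_subset_Ico_right h3)) (hS3.trans (Ico_subset_Ico_left h2))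
    have e1 : ps d τ1 x (S1 ∪ (S2 ∪ S3)) τ2 = ps d t3 (ps d t0 (ps d τ1 x S1 t0) S2 t3) S3 τ2 := by
      rw [ps_union_right d x hS1 hS23 h1 (h2.trans h3) le_rfl, ps_union_right d _ hS2 hS3 h2 h3 le_rfl]
    rw [e1]
    have e2 := hC S1 S2 S3 hS1 hS2 hS3
    by_cases hc : C (S1 ∪ (S2 ∪ S3))
    · have hc' := e2.1 hc
      simp only [hc, hc', and_true]
    · have hc' := mt e2.2 hc
      rw [if_neg fun h => hc h.2, if_neg fun h => hc' h.2]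
  -- the right side
  have eR : ∑ u ∈ Rng d τ1 x t0, ∑ v ∈ Rng d τ1 x t3,
      Gout μ s d P Φ η τ1 x t0 u t3 v τ2 y * Kc μ s d (Ψ u) η t0 u t3 v =
      ∑ S1 ∈ (Ico τ1 t0).powerset, ∑ S2 ∈ (Ico t0 t3).powerset,
      ∑ S3 ∈ (Ico t3 τ2).powerset, pw μ s d η τ1 x t0 S1 * (pw μ s d η t0 (ps d τ1 x S1 t0) t3 S2 *
        (pw μ s d η t3 (ps d t0 (ps d τ1 x S1 t0) S2 t3) τ2 S3 *
          (if ps d t3 (ps d t0 (ps d τ1 x S1 t0) S2 t3) S3 τ2 = y ∧ (InP d P τ1 x t0 S1 ∧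
            InP d P t3 (ps d t0 (ps d τ1 x S1 t0) S2 t3) τ2 S3 ∧
            Φ (glue d τ1 x t0 t3 (ps d t0 (ps d τ1 x S1 t0) S2 t3) S1 S3) ∧ Ψ (ps d τ1 x S1 t0) S2)
            then (1 : ℝ) else 0))) := by
    have e1 : ∀ u ∈ Rng d τ1 x t0, ∀ v ∈ Rng d τ1 x t3,
        Gout μ s d P Φ η τ1 x t0 u t3 v τ2 y * Kc μ s d (Ψ u) η t0 u t3 v =
        ∑ S1 ∈ (Ico τ1 t0).powerset, ∑ S2 ∈ (Ico t0 t3).powerset, ∑ S3 ∈ (Ico t3 τ2).powerset,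
          (pw μ s d η τ1 x t0 S1 * (pw μ s d η t0 u t3 S2 * (pw μ s d η t3 v τ2 S3 *
          (if (ps d τ1 x S1 t0 = u ∧ InP d P τ1 x t0 S1) ∧ (ps d t3 v S3 τ2 = y ∧ InP d P t3 v τ2 S3) ∧
            Φ (glue d τ1 x t0 t3 v S1 S3) then (if ps d t0 u S2 t3 = v ∧ Ψ u S2 then (1 : ℝ) else 0) else 0)))) := by
      intro u _ v _
      rw [Kc_eq_sum]
      unfold Gout
      rw [sum_mul]
      refine sum_congr rfl fun S1 _ => ?_
      rw [sum_mul_sum, sum_comm]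
      refine sum_congr rfl fun S2 _ => sum_congr rfl fun S3 _ => ?_
      split_ifs <;> ring
    rw [sum_congr rfl fun u hu => sum_congr rfl fun v hv => e1 u hu v hv]
    rw [sum_congr rfl fun u _ => sum_comm]
    rw [sum_comm]
    refine sum_congr rfl fun S1 hS1 => ?_
    rw [mem_powerset] at hS1
    rw [sum_congr rfl fun u _ => sum_comm]
    rw [sum_comm]
    refine sum_congr rfl fun S2 hS2 => ?_
    rw [mem_powerset] at hS2
    rw [sum_congr rfl fun u _ => sum_comm]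
    rw [sum_comm]
    refine sum_congr rfl fun S3 hS3 => ?_
    rw [sum_eq_single (ps d τ1 x S1 t0)]
    · rw [sum_eq_single (ps d t0 (ps d τ1 x S1 t0) S2 t3)]
      · congr 3
        by_cases hΨ : Ψ (ps d τ1 x S1 t0) S2
        · simp only [hΨ, and_true, true_and, if_true]
          congr 1
          refine propext ⟨?_, ?_⟩
          · rintro ⟨h4, ⟨h5, h6⟩, h7⟩
            exact ⟨h5, h4, h6, h7⟩
          · rintro ⟨h5, h4, h6, h7⟩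
            exact ⟨h4, ⟨h5, h6⟩, h7⟩
        · simp only [hΨ, and_false, if_false, ite_self]
      · intro v _ hv
        have : ¬ (ps d t0 (ps d τ1 x S1 t0) S2 t3 = v ∧ Ψ (ps d τ1 x S1 t0) S2) := fun h => hv h.1.symm
        rw [if_neg this, ite_self, mul_zero, mul_zero, mul_zero]
      · intro hv
        exact absurd (hRv S1 S2 hS1 hS2) hv
    · intro u _ hu
      refine sum_eq_zero fun v _ => ?_
      rw [if_neg fun h => hu h.1.1.symm, mul_zero, mul_zero, mul_zero]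
    · intro hu
      exact absurd (ps_mem_Rng d τ1 x t0 S1) hu
  rw [eL, eR]

end

end Pool.Agent.W_7d29a1_Z37
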