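import Pool.Agent.W_7d29a1_Z37.CellA

/-!
STORM Z (MP_7d29a1_pr), (DL) with cells: the class with a condition on the layer positions, the gain of a boosted cell. (helper37)
-/

namespace Pool.Agent.W_7d29a1_Z37

open Finset Pool.Agent.W_7d29a1_F Pool.Agent.W_7d29a1_Z

noncomputable section

variable {μ : MeasureTheory.Measure ℝ} {s : ℝ}

/-- A cell: the kernel of the cell goes from `(t1, b)` to `(t2, e)` through the sites `Y`; the layer of the cell is `[t0, t3]`, `U` are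
the pairs (place at the time `t0`, place at the time `t3`) which are attributed to the cell. -/
structure Cel where
  t0 : ℕ
  t1 : ℕ
  t2 : ℕ
  t3 : ℕ
  b : ℤ
  e : ℤ
  Y : ℕ → Finset ℤ
  U : Finset (ℤ × ℤ)

/-- The times are ordered and the sites of the cell satisfy the condition `P`. -/
structure Cel.Ok (c : Cel) (P : ℕ → ℤ → Prop) : Prop where
  h01 : c.t0 ≤ c.t1
  h12 : c.t1 ≤ c.t2
  h23 : c.t2 ≤ c.t3
  sub : ∀ t ∈ Ioc c.t1 c.t2, ∀ y ∈ c.Y t, P t y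

/-- The sites of the cell. -/
def Cel.T (c : Cel) : Finset Pt := sJ (Ioc c.t1 c.t2) c.Y

/-- The kernel of the cell. -/
def Cel.K (c : Cel) (μ : MeasureTheory.Measure ℝ) (s : ℝ) (d : ℕ → ℤ) (η : Env) : ℝ := Kcell μ s d c.Y η c.t1 c.b c.t2 c.e

/-- The REGULAR environments of the cell, luck at most `A`: the kernels of the layer are at most `e ^ A` times the product of the legs. -/
def Cel.Reg (c : Cel) (μ : MeasureTheory.Measure ℝ) (s : ℝ) (d : ℕ → ℤ) (P : ℕ → ℤ → Prop) (A : ℝ) : Set Env :=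
  {η | ∀ p ∈ c.U, KP μ s d P η c.t0 p.1 c.t3 p.2 ≤
    Real.exp A * (KP μ s d P η c.t0 p.1 c.t1 c.b * KP μ s d P η c.t2 c.e c.t3 p.2)}

theorem Cel.K_nonneg (c : Cel) (d : ℕ → ℤ) (η : Env) : 0 ≤ c.K μ s d η := Kcell_nonneg _ _ _ _ _ _ _

/-- The class: the condition `P` at each time and the condition `Φ` on the positions. -/
def CR (d : ℕ → ℤ) (P : ℕ → ℤ → Prop) (Φ : (ℕ → ℤ) → Prop) (τ1 : ℕ) (x : ℤ) (τ2 : ℕ) (S : Finset ℕ) : Prop :=
  InP d P τ1 x τ2 S ∧ Φ (fun t => ps d τ1 x S t)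

/-- The pieces of the class whose crossing of the layer is attributed to the cell. -/
def CU (d : ℕ → ℤ) (P : ℕ → ℤ → Prop) (Φ : (ℕ → ℤ) → Prop) (c : Cel) (τ1 : ℕ) (x : ℤ) (τ2 : ℕ) (S : Finset ℕ) : Prop :=
  CR d P Φ τ1 x τ2 S ∧ (ps d τ1 x S c.t0, ps d τ1 x S c.t3) ∈ c.U

/-- The pieces of the class through the cell. -/
def CT (d : ℕ → ℤ) (P : ℕ → ℤ → Prop) (Φ : (ℕ → ℤ) → Prop) (c : Cel) (τ1 : ℕ) (x : ℤ) (τ2 : ℕ) (S : Finset ℕ) : Prop :=
  CR d P Φ τ1 x τ2 S ∧ ps d τ1 x S c.t1 = c.b ∧ ps d τ1 x S c.t2 = c.e ∧ ∀ t ∈ Ioc c.t1 c.t2, ps d τ1 x S t ∈ c.Y t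

/-- The weight outside the cell of the pieces through the cell. -/
def Oc (μ : MeasureTheory.Measure ℝ) (s : ℝ) (d : ℕ → ℤ) (P : ℕ → ℤ → Prop) (Φ : (ℕ → ℤ) → Prop) (c : Cel) (η : Env)
    (τ1 : ℕ) (x : ℤ) (τ2 : ℕ) (y : ℤ) : ℝ :=
  ∑ u ∈ Rng d τ1 x c.t0, ∑ v ∈ Rng d τ1 x c.t3, Gout μ s d P Φ η τ1 x c.t0 u c.t3 v τ2 y *
    (KP μ s d P η c.t0 u c.t1 c.b * KP μ s d P η c.t2 c.e c.t3 v)

theorem Oc_nonneg (d : ℕ → ℤ) (P : ℕ → ℤ → Prop) (Φ : (ℕ → ℤ) → Prop) (c : Cel) (η : Env)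
    (τ1 : ℕ) (x : ℤ) (τ2 : ℕ) (y : ℤ) : 0 ≤ Oc μ s d P Φ c η τ1 x τ2 y :=
  sum_nonneg fun _ _ => sum_nonneg fun _ _ => mul_nonneg (Gout_nonneg _ _ _ _ _ _ _ _ _ _ _ _)
    (mul_nonneg (KP_nonneg _ _ _ _ _ _ _) (KP_nonneg _ _ _ _ _ _ _))

theorem inter_union_of_le {a t3 t : ℕ} {S1 S3 : Finset ℕ} (h : S1 ⊆ Ico a t3) : (S1 ∪ S3) ∩ Ico t3 t = S3 ∩ Ico t3 t := by
  ext i
  simp only [mem_inter, mem_union, mem_Ico]
  constructor
  · rintro ⟨h1 | h1, h2⟩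
    · have := mem_Ico.1 (h h1)
      omega
    · exact ⟨h1, h2⟩
  · rintro ⟨h1, h2⟩
    exact ⟨Or.inr h1, h2⟩

theorem inter_union_of_ge {a t0 τ2 t : ℕ} {S1 S3 : Finset ℕ} (h : S3 ⊆ Ico t0 τ2) (ht : t ≤ t0) :
    (S1 ∪ S3) ∩ Ico a t = S1 ∩ Ico a t := by
  ext i
  simp only [mem_inter, mem_union, mem_Ico]
  constructor
  · rintro ⟨h1 | h1, h2⟩
    · exact ⟨h1, h2⟩
    · have := mem_Ico.1 (h h1)
      omega
  · rintro ⟨h1, h2⟩
    exact ⟨Or.inl h1, h2⟩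

/-- The class at a layer which the condition `Φ` does not see. -/
theorem CR_union {d : ℕ → ℤ} {P : ℕ → ℤ → Prop} {Φ : (ℕ → ℤ) → Prop} {τ1 t0 t3 τ2 : ℕ} (x : ℤ) (h1 : τ1 ≤ t0)
    (h2 : t0 ≤ t3) (h3 : t3 ≤ τ2) (hΦ : Blind Φ t0 t3) {S1 S2 S3 : Finset ℕ} (hS1 : S1 ⊆ Ico τ1 t0) (hS2 : S2 ⊆ Ico t0 t3)
    (hS3 : S3 ⊆ Ico t3 τ2) :
    CR d P Φ τ1 x τ2 (S1 ∪ (S2 ∪ S3)) ↔ InP d P τ1 x t0 S1 ∧ InP d P t3 (ps d t0 (ps d τ1 x S1 t0) S2 t3) τ2 S3 ∧
        Φ (glue d τ1 x t0 t3 (ps d t0 (ps d τ1 x S1 t0) S2 t3) S1 S3) ∧ InP d P t0 (ps d τ1 x S1 t0) t3 S2 := by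
  have hS23 : S2 ∪ S3 ⊆ Ico t0 τ2 :=
    union_subset (hS2.trans (Ico_subset_Ico_right h3)) (hS3.trans (Ico_subset_Ico_left h2))
  have e1 := InP_union (P := P) (x := x) (d := d) h1 (h2.trans h3) hS1 hS23
  have e2 := InP_union (P := P) (x := ps d τ1 x S1 t0) (d := d) h2 h3 hS2 hS3
  have e3 : Φ (fun t => ps d τ1 x (S1 ∪ (S2 ∪ S3)) t) ↔
      Φ (glue d τ1 x t0 t3 (ps d t0 (ps d τ1 x S1 t0) S2 t3) S1 S3) := by
    refine hΦ _ _ fun t ht => ?_
    unfold glue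
    by_cases h4 : t ≤ t0
    · rw [if_pos h4]
      exact ps_congr d τ1 x (inter_union_of_ge hS23 h4)
    · rw [if_neg h4]
      have h5 : t3 ≤ t := by
        rcases ht with h | h
        · exact absurd h h4
        · exact h
      have h6 : ps d τ1 x (S1 ∪ (S2 ∪ S3)) t3 = ps d t0 (ps d τ1 x S1 t0) S2 t3 := by
        rw [ps_union_right d x hS1 hS23 h1 h2 h3, ps_union_left d _ hS2 hS3 le_rfl]
      rw [← ps_chain d x (S1 ∪ (S2 ∪ S3)) (h1.trans h2) h5, h6]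
      refine ps_congr d t3 _ ?_
      rw [inter_union_of_le (hS1.trans (Ico_subset_Ico_right h2)), inter_union_of_le hS2]
  unfold CR
  rw [e1, e2, e3]
  tauto

/-- The kernel of the class through the cell. -/
theorem Kc_CT {d : ℕ → ℤ} {P : ℕ → ℤ → Prop} {Φ : (ℕ → ℤ) → Prop} {c : Cel} (hc : c.Ok P) (hΦ : Blind Φ c.t0 c.t3) (η : Env)
    {τ1 τ2 : ℕ} (x y : ℤ) (h1 : τ1 ≤ c.t0) (h3 : c.t3 ≤ τ2) :
    Kc μ s d (CT d P Φ c τ1 x τ2) η τ1 x τ2 y = Oc μ s d P Φ c η τ1 x τ2 y * c.K μ s d η := by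
  have h2 : c.t0 ≤ c.t3 := hc.h01.trans (hc.h12.trans hc.h23)
  rw [Kc_layer d η x y h1 h2 h3 (P := P) (Φ := Φ) (Ψ := fun u => Th d P c.Y c.t0 u c.t1 c.b c.t2 c.e c.t3)]
  · unfold Oc
    rw [sum_mul]
    refine sum_congr rfl fun u _ => ?_
    rw [sum_mul]
    refine sum_congr rfl fun v _ => ?_
    rw [Kc_Th d η u c.b c.e v hc.h01 hc.h12 hc.h23 hc.sub]
    unfold Cel.K
    ring
  · intro S1 S2 S3 hS1 hS2 hS3
    have hS23 : S2 ∪ S3 ⊆ Ico c.t0 τ2 :=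
      union_subset (hS2.trans (Ico_subset_Ico_right h3)) (hS3.trans (Ico_subset_Ico_left h2))
    have e1 := CR_union (d := d) (P := P) x h1 h2 h3 hΦ hS1 hS2 hS3
    have e2 : ∀ t, c.t0 ≤ t → t ≤ c.t3 → ps d τ1 x (S1 ∪ (S2 ∪ S3)) t = ps d c.t0 (ps d τ1 x S1 c.t0) S2 t := by
      intro t ht ht'
      rw [ps_union_right d x hS1 hS23 h1 ht (ht'.trans h3), ps_union_left d _ hS2 hS3 ht']
    unfold CT Th
    rw [e1, e2 _ hc.h01 (hc.h12.trans hc.h23), e2 _ (hc.h01.trans hc.h12) hc.h23]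
    have e3 : (∀ t ∈ Ioc c.t1 c.t2, ps d τ1 x (S1 ∪ (S2 ∪ S3)) t ∈ c.Y t) ↔
        ∀ t ∈ Ioc c.t1 c.t2, ps d c.t0 (ps d τ1 x S1 c.t0) S2 t ∈ c.Y t := by
      refine forall₂_congr fun t ht => ?_
      rw [mem_Ioc] at ht
      rw [e2 t (hc.h01.trans ht.1.le) (ht.2.trans hc.h23)]
    rw [e3]
    tauto

theorem exists_pos_of_sum_pos {ι : Type*} {s : Finset ι} {f : ι → ℝ} (h : 0 < ∑ i ∈ s, f i) : ∃ i ∈ s, 0 < f i := by
  by_contra hc
  exact absurd h (not_lt.2 (sum_nonpos fun i hi => not_lt.1 fun hf => hc ⟨i, hi, hf⟩))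

/-- The kernel of the class attributed to a regular cell. -/
theorem Kc_CU_le {d : ℕ → ℤ} {P : ℕ → ℤ → Prop} {Φ : (ℕ → ℤ) → Prop} {c : Cel} (hc : c.Ok P) (hΦ : Blind Φ c.t0 c.t3)
    {A : ℝ} {η : Env} (hη : η ∈ c.Reg μ s d P A) {τ1 τ2 : ℕ} (x y : ℤ) (h1 : τ1 ≤ c.t0) (h3 : c.t3 ≤ τ2) :
    Kc μ s d (CU d P Φ c τ1 x τ2) η τ1 x τ2 y ≤ Real.exp A * Oc μ s d P Φ c η τ1 x τ2 y ∧
      (0 < Kc μ s d (CU d P Φ c τ1 x τ2) η τ1 x τ2 y → c.K μ s d η ≤ Real.exp A) := by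
  classical
  have h2 : c.t0 ≤ c.t3 := hc.h01.trans (hc.h12.trans hc.h23)
  have e0 : Kc μ s d (CU d P Φ c τ1 x τ2) η τ1 x τ2 y = ∑ u ∈ Rng d τ1 x c.t0, ∑ v ∈ Rng d τ1 x c.t3,
      Gout μ s d P Φ η τ1 x c.t0 u c.t3 v τ2 y * (if (u, v) ∈ c.U then KP μ s d P η c.t0 u c.t3 v else 0) := by
    rw [Kc_layer d η x y h1 h2 h3 (P := P) (Φ := Φ)
      (Ψ := fun u S2 => InP d P c.t0 u c.t3 S2 ∧ (u, ps d c.t0 u S2 c.t3) ∈ c.U)]
    · refine sum_congr rfl fun u _ => sum_congr rfl fun v _ => ?_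
      congr 1
      split_ifs with hu
      · refine Kc_congr_class d η _ _ _ _ fun S hS hv => ?_
        constructor
        · exact fun h => h.1
        · exact fun h => ⟨h, by rw [hv]; exact hu⟩
      · rw [Kc_eq_sum]
        refine sum_eq_zero fun S _ => ?_
        rw [if_neg, mul_zero]
        rintro ⟨hv, -, h⟩
        rw [hv] at h
        exact hu h
    · intro S1 S2 S3 hS1 hS2 hS3
      have hS23 : S2 ∪ S3 ⊆ Ico c.t0 τ2 :=
        union_subset (hS2.trans (Ico_subset_Ico_right h3)) (hS3.trans (Ico_subset_Ico_left h2))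
      have e1 := CR_union (d := d) (P := P) x h1 h2 h3 hΦ hS1 hS2 hS3
      have e2 : ps d τ1 x (S1 ∪ (S2 ∪ S3)) c.t0 = ps d τ1 x S1 c.t0 := ps_union_left d x hS1 hS23 le_rfl
      have e3 : ps d τ1 x (S1 ∪ (S2 ∪ S3)) c.t3 = ps d c.t0 (ps d τ1 x S1 c.t0) S2 c.t3 := by
        rw [ps_union_right d x hS1 hS23 h1 h2 h3, ps_union_left d _ hS2 hS3 le_rfl]
      unfold CU
      rw [e1, e2, e3]
      tauto
  have hterm : ∀ u v, (if (u, v) ∈ c.U then KP μ s d P η c.t0 u c.t3 v else 0) ≤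
      Real.exp A * (KP μ s d P η c.t0 u c.t1 c.b * KP μ s d P η c.t2 c.e c.t3 v) := by
    intro u v
    split_ifs with hu
    · exact hη (u, v) hu
    · exact mul_nonneg (Real.exp_pos _).le (mul_nonneg (KP_nonneg _ _ _ _ _ _ _) (KP_nonneg _ _ _ _ _ _ _))
  refine ⟨?_, fun hpos => ?_⟩
  · rw [e0]
    unfold Oc
    rw [mul_sum]
    refine sum_le_sum fun u _ => ?_
    rw [mul_sum]
    refine sum_le_sum fun v _ => ?_
    have := mul_le_mul_of_nonneg_left (hterm u v) (Gout_nonneg (μ := μ) (s := s) d P Φ η τ1 x c.t0 u c.t3 v τ2 y)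
    refine this.trans (le_of_eq ?_)
    ring
  · rw [e0] at hpos
    obtain ⟨u, -, hu⟩ := exists_pos_of_sum_pos hpos
    obtain ⟨v, -, hv⟩ := exists_pos_of_sum_pos hu
    have hif : 0 < (if (u, v) ∈ c.U then KP μ s d P η c.t0 u c.t3 v else 0) := by
      rcases (lt_or_ge 0 (if (u, v) ∈ c.U then KP μ s d P η c.t0 u c.t3 v else 0)) with h | h
      · exact h
      · exact absurd hv (not_lt.2 (mul_nonpos_of_nonneg_of_nonpos (Gout_nonneg _ _ _ _ _ _ _ _ _ _ _ _) h))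
    have hleg : 0 < KP μ s d P η c.t0 u c.t1 c.b * KP μ s d P η c.t2 c.e c.t3 v :=
      pos_of_mul_pos_right (hif.trans_le (hterm u v)) (Real.exp_pos _).le
    have hUm : (u, v) ∈ c.U := by
      by_contra h
      rw [if_neg h] at hif
      exact lt_irrefl _ hif
    have h4 : KP μ s d P η c.t0 u c.t1 c.b * c.K μ s d η * KP μ s d P η c.t2 c.e c.t3 v ≤ KP μ s d P η c.t0 u c.t3 v := by
      have h5 : c.K μ s d η ≤ KP μ s d P η c.t1 c.b c.t2 c.e := Kcell_le_KP d η c.b c.e hc.sub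
      refine le_trans (mul_le_mul_of_nonneg_right (mul_le_mul_of_nonneg_left h5 (KP_nonneg _ _ _ _ _ _ _))
        (KP_nonneg _ _ _ _ _ _ _)) ?_
      exact (mul_le_mul_of_nonneg_right (KP_mul_le d P η u c.b c.e hc.h01 hc.h12) (KP_nonneg _ _ _ _ _ _ _)).trans
        (KP_mul_le d P η u c.e v (hc.h01.trans hc.h12) hc.h23)
    have h6 := hη (u, v) hUm
    have h7 : c.K μ s d η * (KP μ s d P η c.t0 u c.t1 c.b * KP μ s d P η c.t2 c.e c.t3 v) ≤
        Real.exp A * (KP μ s d P η c.t0 u c.t1 c.b * KP μ s d P η c.t2 c.e c.t3 v) := by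
      refine le_trans (le_of_eq ?_) (h4.trans h6)
      ring
    exact le_of_mul_le_mul_right h7 hleg

/-- The gain of one cell: if the boosted cell multiplies the share `th` of the competitors by `e ^ g`. -/
theorem gain_log {r th g r' : ℝ} (hr : 0 < r) (hth0 : 0 ≤ th) (hth1 : th ≤ 1)
    (h : r * (1 + th * (Real.exp g - 1)) ≤ r') : th * g ≤ Real.log r' - Real.log r := by
  have h1 : 1 + th * (Real.exp g - 1) = th * Real.exp g + (1 - th) * Real.exp 0 := by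
    rw [Real.exp_zero]
    ring
  have h2 : Real.exp (th * g) ≤ 1 + th * (Real.exp g - 1) := by
    rw [h1]
    have h3 := convexOn_exp.2 (Set.mem_univ g) (Set.mem_univ 0) hth0 (sub_nonneg.2 hth1) (by ring)
    simp only [smul_eq_mul, mul_zero, add_zero] at h3
    simpa using h3
  have h4 : r * Real.exp (th * g) ≤ r' := (mul_le_mul_of_nonneg_left h2 hr.le).trans h
  have h5 := Real.log_le_log (by positivity) h4
  rw [Real.log_mul hr.ne' (Real.exp_pos _).ne', Real.log_exp] at h5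
  linarith

/-- The numeric form of the gain. -/
theorem gain_num {R O Sg K A t : ℝ} (hR : 0 < R) (hO : 0 ≤ O) (hS0 : 0 ≤ Sg) (hSR : Sg ≤ R) (hSO : Sg ≤ Real.exp A * O)
    (hK : 0 < Sg → K ≤ Real.exp A) :
    Sg / R * (t - A) ≤ Real.log (R + O * (max K (Real.exp t) - K)) - Real.log R := by
  refine gain_log hR (div_nonneg hS0 hR.le) ((div_le_one hR).2 hSR) ?_
  have e1 : R * (1 + Sg / R * (Real.exp (t - A) - 1)) = R + Sg * (Real.exp (t - A) - 1) := by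
    field_simp
  rw [e1]
  have hmax : 0 ≤ max K (Real.exp t) - K := sub_nonneg.2 (le_max_left _ _)
  rcases hS0.eq_or_lt with h0 | h0
  · rw [← h0, zero_mul]
    have := mul_nonneg hO hmax
    linarith
  · have hK' := hK h0
    have h3 : Real.exp t - Real.exp A ≤ max K (Real.exp t) - K := by
      have := le_max_right K (Real.exp t)
      linarith
    have h4 : Sg * (Real.exp (t - A) - 1) ≤ O * (max K (Real.exp t) - K) := by
      rcases le_total t A with ht | ht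
      · have h5 : Real.exp (t - A) - 1 ≤ 0 := by
          have := Real.exp_le_one_iff.2 (show t - A ≤ 0 by linarith)
          linarith
        exact (mul_nonpos_of_nonneg_of_nonpos hS0 h5).trans (mul_nonneg hO hmax)
      · have h5 : 0 ≤ Real.exp (t - A) - 1 := by
          have := Real.one_le_exp (show 0 ≤ t - A by linarith)
          linarith
        calc Sg * (Real.exp (t - A) - 1) ≤ (Real.exp A * O) * (Real.exp (t - A) - 1) := mul_le_mul_of_nonneg_right hSO h5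
          _ = O * (Real.exp A * Real.exp (t - A) - Real.exp A) := by ring
          _ = O * (Real.exp t - Real.exp A) := by
              rw [← Real.exp_add]
              congr 3
              ring
          _ ≤ _ := mul_le_mul_of_nonneg_left h3 hO
    linarith

end

end Pool.Agent.W_7d29a1_Z37
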