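import Pool.Agent.W_7d29a1_Z37.CellB
import Pool.Agent.W_7d29a1_Z59.DLrB
import Pool.Agent.W_7d29a1_Z.TieK

/-!
STORM Z (MP_7d29a1_pr), (DL) with cells for path kernels: the instance of `Dlr`. (helper37)
-/

namespace Pool.Agent.W_7d29a1_Z37

open Finset MeasureTheory Pool.Agent.W_7d29a1_F Pool.Agent.W_7d29a1_Z Pool.Agent.W_7d29a1_Z59 Pool.Agent.W_7d29a1_h48 Pool.Agent.W_7d29a1_NP

noncomputable section

/-- The sum over the brackets `b ∈ B` of the kernel (frame `d'`) of the pieces of the class between the positions of `S`, divided by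
the denominator. -/
def rR (μ : Measure ℝ) (s : ℝ) (d d' : ℕ → ℤ) (P : ℕ → ℤ → Prop) (Φ : (ℕ → ℤ) → Prop) (B : Finset (ℕ × ℕ))
    (den : ℕ × ℕ → ℤ → ℤ → Env → ℝ) (t0 : ℕ) (x0 : ℤ) (S : Finset ℕ) (η : Env) : ℝ :=
  ∑ b ∈ B, Kc μ s d' (CR d' P Φ b.1 (ps d t0 x0 S b.1) b.2) η b.1 (ps d t0 x0 S b.1) b.2 (ps d t0 x0 S b.2) /
    den b (ps d t0 x0 S b.1) (ps d t0 x0 S b.2) η

/-- The near ties of depth `M` of the path `S`, with the class as competitor. -/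
def ntR (μ : Measure ℝ) (s : ℝ) (d d' : ℕ → ℤ) (P : ℕ → ℤ → Prop) (Φ : (ℕ → ℤ) → Prop) (B : Finset (ℕ × ℕ))
    (den : ℕ × ℕ → ℤ → ℤ → Env → ℝ) (t0 : ℕ) (x0 : ℤ) (M : ℝ) (S : Finset ℕ) : Set Env :=
  {η | Real.exp (-M) ≤ rR μ s d d' P Φ B den t0 x0 S η ∧ rR μ s d d' P Φ B den t0 x0 S η ≤ Real.exp M}

variable {μ : Measure ℝ} {s : ℝ}

theorem Kc_pos_or (d : ℕ → ℤ) (C : Finset ℕ → Prop) (t1 : ℕ) (x : ℤ) (t2 : ℕ) (y : ℤ) :
    (∀ η : Env, 0 < Kc μ s d C η t1 x t2 y) ∨ ∀ η : Env, Kc μ s d C η t1 x t2 y = 0 := by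
  classical
  rcases ((pcs d t1 x t2 y).filter C).eq_empty_or_nonempty with h | h
  · right
    intro η
    unfold Kc
    rw [h, sum_empty]
  · left
    intro η
    exact sum_pos (fun _ _ => pw_pos _ _ _ _ _ _) h

theorem rR_pos_or (d d' : ℕ → ℤ) (P : ℕ → ℤ → Prop) (Φ : (ℕ → ℤ) → Prop) {B : Finset (ℕ × ℕ)}
    {den : ℕ × ℕ → ℤ → ℤ → Env → ℝ} (hd : ∀ b ∈ B, ∀ x y, (∀ η, 0 < den b x y η) ∨ ∀ η, den b x y η = 0)
    (t0 : ℕ) (x0 : ℤ) (S : Finset ℕ) :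
    (∀ η : Env, 0 < rR μ s d d' P Φ B den t0 x0 S η) ∨ ∀ η : Env, rR μ s d d' P Φ B den t0 x0 S η = 0 := by
  have h1 : ∀ b ∈ B, (∀ η : Env, 0 < Kc μ s d' (CR d' P Φ b.1 (ps d t0 x0 S b.1) b.2) η b.1 (ps d t0 x0 S b.1) b.2
      (ps d t0 x0 S b.2) / den b (ps d t0 x0 S b.1) (ps d t0 x0 S b.2) η) ∨
      ∀ η : Env, Kc μ s d' (CR d' P Φ b.1 (ps d t0 x0 S b.1) b.2) η b.1 (ps d t0 x0 S b.1) b.2
      (ps d t0 x0 S b.2) / den b (ps d t0 x0 S b.1) (ps d t0 x0 S b.2) η = 0 := by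
    intro b hb
    rcases hd b hb (ps d t0 x0 S b.1) (ps d t0 x0 S b.2) with h | h
    · rcases Kc_pos_or (μ := μ) (s := s) d' (CR d' P Φ b.1 (ps d t0 x0 S b.1) b.2) b.1 (ps d t0 x0 S b.1) b.2
        (ps d t0 x0 S b.2) with h' | h'
      · exact Or.inl fun η => div_pos (h' η) (h η)
      · exact Or.inr fun η => by rw [h' η, zero_div]
    · exact Or.inr fun η => by rw [h η, div_zero]
  by_cases h2 : ∃ b ∈ B, ∀ η : Env, 0 < Kc μ s d' (CR d' P Φ b.1 (ps d t0 x0 S b.1) b.2) η b.1 (ps d t0 x0 S b.1) b.2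
      (ps d t0 x0 S b.2) / den b (ps d t0 x0 S b.1) (ps d t0 x0 S b.2) η
  · left
    intro η
    obtain ⟨b, hb, hb'⟩ := h2
    refine sum_pos' (fun b' hb'' => ?_) ⟨b, hb, hb' η⟩
    rcases h1 b' hb'' with h | h
    · exact (h η).le
    · exact (h η).ge
  · right
    intro η
    refine sum_eq_zero fun b hb => ?_
    rcases h1 b hb with h | h
    · exact absurd ⟨b, hb, h⟩ h2
    · exact h η

theorem sJ_rows {T : Finset ℕ} {Y : ℕ → Finset ℤ} {t : ℕ} (ht : t ∉ T) (y : ℤ) : (((t : ℤ), y) : Pt) ∉ sJ T Y := by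
  rw [mem_sJ]
  exact fun h => ht h.1

/-- The outer weight does not depend on the sites of the cell. -/
theorem Oc_env (d : ℕ → ℤ) (P : ℕ → ℤ → Prop) (Φ : (ℕ → ℤ) → Prop) {c : Cel} (hc : c.Ok P) {η η' : Env}
    (h : ∀ v : Pt, v ∉ (c.T : Set Pt) → η v = η' v) (τ1 : ℕ) (x : ℤ) (τ2 : ℕ) (y : ℤ) :
    Oc μ s d P Φ c η τ1 x τ2 y = Oc μ s d P Φ c η' τ1 x τ2 y := by
  have h0 : ∀ t : ℕ, t ∉ Ioc c.t1 c.t2 → ∀ y : ℤ, η ((t : ℤ), y) = η' ((t : ℤ), y) := by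
    intro t ht y
    refine h _ fun hv => ?_
    exact sJ_rows ht y (by exact_mod_cast hv)
  unfold Oc
  refine sum_congr rfl fun u _ => sum_congr rfl fun v _ => ?_
  have e1 : Gout μ s d P Φ η τ1 x c.t0 u c.t3 v τ2 y = Gout μ s d P Φ η' τ1 x c.t0 u c.t3 v τ2 y := by
    refine Gout_env d P Φ τ1 x c.t0 u c.t3 v τ2 y fun t ht y => h0 t (fun hm => ?_) y
    rw [mem_Ioc] at hm
    have h1 := hc.h01
    have h3 := hc.h23
    omega
  have e2 : KP μ s d P η c.t0 u c.t1 c.b = KP μ s d P η' c.t0 u c.t1 c.b := by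
    refine Kc_rows d _ c.t0 u c.t1 c.b fun t ht y => h0 t (fun hm => ?_) y
    rw [mem_Ioc] at hm ht
    omega
  have e3 : KP μ s d P η c.t2 c.e c.t3 v = KP μ s d P η' c.t2 c.e c.t3 v := by
    refine Kc_rows d _ c.t2 c.e c.t3 v fun t ht y => h0 t (fun hm => ?_) y
    rw [mem_Ioc] at hm ht
    omega
  rw [e1, e2, e3]

theorem Gout_meas (d : ℕ → ℤ) (P : ℕ → ℤ → Prop) (Φ : (ℕ → ℤ) → Prop)
    (τ1 : ℕ) (x : ℤ) (t0 : ℕ) (u : ℤ) (t3 : ℕ) (v : ℤ) (τ2 : ℕ) (y : ℤ) :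
    Measurable fun η : Env => Gout μ s d P Φ η τ1 x t0 u t3 v τ2 y := by
  classical
  unfold Gout
  exact Finset.measurable_sum _ fun _ _ => Finset.measurable_sum _ fun _ _ =>
    ((pw_meas d τ1 x t0 _).mul (pw_meas d t3 v τ2 _)).mul_const _

theorem Oc_meas (d : ℕ → ℤ) (P : ℕ → ℤ → Prop) (Φ : (ℕ → ℤ) → Prop) (c : Cel) (τ1 : ℕ) (x : ℤ) (τ2 : ℕ) (y : ℤ) :
    Measurable fun η : Env => Oc μ s d P Φ c η τ1 x τ2 y := by
  unfold Oc
  exact Finset.measurable_sum _ fun _ _ => Finset.measurable_sum _ fun _ _ =>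
    (Gout_meas d P Φ _ _ _ _ _ _ _ _).mul ((Kc_meas d _ _ _ _ _).mul (Kc_meas d _ _ _ _ _))

/-- The data of (DL) with cells. -/
structure CDat {κ : Type*} (μ : Measure ℝ) (s : ℝ) (d d' : ℕ → ℤ) (P : ℕ → ℤ → Prop) (Φ : (ℕ → ℤ) → Prop) (B : Finset (ℕ × ℕ))
    (den : ℕ × ℕ → ℤ → ℤ → Env → ℝ) (t0 : ℕ) (x0 : ℤ) (N : ℕ) (y0 : ℤ) (J : Finset ℕ) (D : ℕ → Finset ℤ)
    (a : Finset ℕ → Env → ℝ) (Z : Finset κ) (c : κ → Cel) (t p : ℝ) : Prop where
  /-- the paths exist -/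
  hne : (pcs d t0 x0 N y0).Nonempty
  /-- the cells -/
  ok : ∀ z ∈ Z, (c z).Ok P
  br : ∀ z ∈ Z, ∀ b ∈ B, b.1 ≤ (c z).t0 ∧ (c z).t3 ≤ b.2
  blind : ∀ z ∈ Z, Blind Φ (c z).t0 (c z).t3
  sub : ∀ z ∈ Z, (c z).T ⊆ sJ J D
  disj : ∀ z ∈ Z, ∀ z' ∈ Z, z ≠ z' → Disjoint (c z).T (c z').T
  p0 : 0 < p
  prob : ∀ z ∈ Z, (law μ).real {η | Real.exp t ≤ (c z).K μ s d' η} = p
  /-- the denominator -/
  dm : ∀ b ∈ B, ∀ x y, Measurable (den b x y)
  dz : ∀ b ∈ B, ∀ x y, (∀ η, 0 < den b x y η) ∨ ∀ η, den b x y η = 0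
  dd : ∀ b ∈ B, ∀ x y, DependsOn (den b x y) ((sJ J D : Set Pt)ᶜ)
  /-- the event -/
  a0 : ∀ S η, 0 ≤ a S η
  a1 : ∀ S η, a S η ≤ 1
  am : ∀ S, Measurable (a S)
  ad : ∀ S, DependsOn (a S) ((sJ J D : Set Pt)ᶜ)
  av : ∀ S ∈ pcs d t0 x0 N y0, ¬ Avo d J D t0 x0 N S → ∀ η, a S η = 0

variable {κ : Type*} {d d' : ℕ → ℤ} {P : ℕ → ℤ → Prop} {Φ : (ℕ → ℤ) → Prop} {B : Finset (ℕ × ℕ)}
  {den : ℕ × ℕ → ℤ → ℤ → Env → ℝ} {t0 : ℕ} {x0 : ℤ} {N : ℕ} {y0 : ℤ} {J : Finset ℕ} {D : ℕ → Finset ℤ}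
  {a : Finset ℕ → Env → ℝ} {Z : Finset κ} {c : κ → Cel} {t p : ℝ}

/-- The part of the class which does not go through the cell. -/
def rQ (μ : Measure ℝ) (s : ℝ) (d d' : ℕ → ℤ) (P : ℕ → ℤ → Prop) (Φ : (ℕ → ℤ) → Prop) (B : Finset (ℕ × ℕ))
    (den : ℕ × ℕ → ℤ → ℤ → Env → ℝ) (t0 : ℕ) (x0 : ℤ) (c : Cel) (S : Finset ℕ) (η : Env) : ℝ :=
  ∑ b ∈ B, Kc μ s d' (fun S' => CR d' P Φ b.1 (ps d t0 x0 S b.1) b.2 S' ∧ ¬ CT d' P Φ c b.1 (ps d t0 x0 S b.1) b.2 S') η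
    b.1 (ps d t0 x0 S b.1) b.2 (ps d t0 x0 S b.2) / den b (ps d t0 x0 S b.1) (ps d t0 x0 S b.2) η

/-- The outer weight of the cell, summed over the brackets. -/
def rO (μ : Measure ℝ) (s : ℝ) (d d' : ℕ → ℤ) (P : ℕ → ℤ → Prop) (Φ : (ℕ → ℤ) → Prop) (B : Finset (ℕ × ℕ))
    (den : ℕ × ℕ → ℤ → ℤ → Env → ℝ) (t0 : ℕ) (x0 : ℤ) (c : Cel) (S : Finset ℕ) (η : Env) : ℝ :=
  ∑ b ∈ B, Oc μ s d' P Φ c η b.1 (ps d t0 x0 S b.1) b.2 (ps d t0 x0 S b.2) /
    den b (ps d t0 x0 S b.1) (ps d t0 x0 S b.2) η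

/-- The part of the class attributed to the cell, summed over the brackets. -/
def rU (μ : Measure ℝ) (s : ℝ) (d d' : ℕ → ℤ) (P : ℕ → ℤ → Prop) (Φ : (ℕ → ℤ) → Prop) (B : Finset (ℕ × ℕ))
    (den : ℕ × ℕ → ℤ → ℤ → Env → ℝ) (t0 : ℕ) (x0 : ℤ) (c : Cel) (S : Finset ℕ) (η : Env) : ℝ :=
  ∑ b ∈ B, Kc μ s d' (CU d' P Φ c b.1 (ps d t0 x0 S b.1) b.2) η b.1 (ps d t0 x0 S b.1) b.2 (ps d t0 x0 S b.2) /
    den b (ps d t0 x0 S b.1) (ps d t0 x0 S b.2) η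

theorem CDat.den_nonneg (h : CDat μ s d d' P Φ B den t0 x0 N y0 J D a Z c t p) {b : ℕ × ℕ} (hb : b ∈ B) (x y : ℤ)
    (η : Env) : 0 ≤ den b x y η := by
  rcases h.dz b hb x y with h1 | h1
  · exact (h1 η).le
  · exact (h1 η).ge

theorem CDat.rR_eq (h : CDat μ s d d' P Φ B den t0 x0 N y0 J D a Z c t p) {z : κ} (hz : z ∈ Z) (S : Finset ℕ) (η : Env) :
    rR μ s d d' P Φ B den t0 x0 S η = rO μ s d d' P Φ B den t0 x0 (c z) S η * (c z).K μ s d' η +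
      rQ μ s d d' P Φ B den t0 x0 (c z) S η := by
  unfold rR rO rQ
  rw [sum_mul, ← sum_add_distrib]
  refine sum_congr rfl fun b hb => ?_
  rw [Kc_split d' (CR d' P Φ b.1 (ps d t0 x0 S b.1) b.2) (CT d' P Φ (c z) b.1 (ps d t0 x0 S b.1) b.2) η _ _ _ _
    fun S' hS' => hS'.1, Kc_CT (h.ok z hz) (h.blind z hz) η _ _ (h.br z hz b hb).1 (h.br z hz b hb).2]
  ring

theorem CDat.rU_le (h : CDat μ s d d' P Φ B den t0 x0 N y0 J D a Z c t p) {z : κ} (hz : z ∈ Z) (S : Finset ℕ) {η : Env}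
    {A : ℝ} (hη : η ∈ (c z).Reg μ s d' P A) :
    rU μ s d d' P Φ B den t0 x0 (c z) S η ≤ Real.exp A * rO μ s d d' P Φ B den t0 x0 (c z) S η ∧
      (0 < rU μ s d d' P Φ B den t0 x0 (c z) S η → (c z).K μ s d' η ≤ Real.exp A) := by
  constructor
  · unfold rU rO
    rw [mul_sum]
    refine sum_le_sum fun b hb => ?_
    rw [← mul_div_assoc]
    exact div_le_div_of_nonneg_right (Kc_CU_le (h.ok z hz) (h.blind z hz) hη _ _ (h.br z hz b hb).1 (h.br z hz b hb).2).1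
      (h.den_nonneg hb _ _ _)
  · intro hpos
    obtain ⟨b, hb, hb'⟩ := exists_pos_of_sum_pos hpos
    have h1 := Kc_CU_le (h.ok z hz) (h.blind z hz) hη (ps d t0 x0 S b.1) (ps d t0 x0 S b.2) (h.br z hz b hb).1 (h.br z hz b hb).2
    refine h1.2 ?_
    rcases (Kc_nonneg (μ := μ) (s := s) d' (CU d' P Φ (c z) b.1 (ps d t0 x0 S b.1) b.2) η b.1 (ps d t0 x0 S b.1) b.2
      (ps d t0 x0 S b.2)).eq_or_lt with h2 | h2
    · rw [← h2, zero_div] at hb'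
      exact absurd hb' (lt_irrefl _)
    · exact h2

theorem CDat.rU_nonneg (h : CDat μ s d d' P Φ B den t0 x0 N y0 J D a Z c t p) (c' : Cel) (S : Finset ℕ) (η : Env) :
    0 ≤ rU μ s d d' P Φ B den t0 x0 c' S η :=
  sum_nonneg fun _ hb => div_nonneg (Kc_nonneg _ _ _ _ _ _ _) (h.den_nonneg hb _ _ _)

theorem CDat.rU_le_rR (h : CDat μ s d d' P Φ B den t0 x0 N y0 J D a Z c t p) (c' : Cel) (S : Finset ℕ) (η : Env) :
    rU μ s d d' P Φ B den t0 x0 c' S η ≤ rR μ s d d' P Φ B den t0 x0 S η :=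
  sum_le_sum fun _ hb => div_le_div_of_nonneg_right (Kc_mono_class _ _ _ _ _ _ fun _ h => h.1) (h.den_nonneg hb _ _ _)

theorem CDat.rO_nonneg (h : CDat μ s d d' P Φ B den t0 x0 N y0 J D a Z c t p) (c' : Cel) (S : Finset ℕ) (η : Env) :
    0 ≤ rO μ s d d' P Φ B den t0 x0 c' S η :=
  sum_nonneg fun _ hb => div_nonneg (Oc_nonneg _ _ _ _ _ _ _ _ _) (h.den_nonneg hb _ _ _)

open scoped Classical in
/-- The regular cells which a piece meets: the sum of the shares. -/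
theorem CDat.sum_rU (h : CDat μ s d d' P Φ B den t0 x0 N y0 J D a Z c t p) {S : Finset ℕ} {η : Env} {A : ℝ} {n : ℕ}
    (hn : ∀ b ∈ B, ∀ S' ⊆ Ico b.1 b.2, ps d' b.1 (ps d t0 x0 S b.1) S' b.2 = ps d t0 x0 S b.2 →
      CR d' P Φ b.1 (ps d t0 x0 S b.1) b.2 S' →
      n ≤ #(Z.filter fun z => η ∈ (c z).Reg μ s d' P A ∧
        (ps d' b.1 (ps d t0 x0 S b.1) S' (c z).t0, ps d' b.1 (ps d t0 x0 S b.1) S' (c z).t3) ∈ (c z).U)) :
    n * rR μ s d d' P Φ B den t0 x0 S η ≤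
      ∑ z ∈ Z, if η ∈ (c z).Reg μ s d' P A then rU μ s d d' P Φ B den t0 x0 (c z) S η else 0 := by
  have e1 : ∑ z ∈ Z, (if η ∈ (c z).Reg μ s d' P A then rU μ s d d' P Φ B den t0 x0 (c z) S η else 0) =
      ∑ b ∈ B, (∑ z ∈ Z, if η ∈ (c z).Reg μ s d' P A then
        Kc μ s d' (CU d' P Φ (c z) b.1 (ps d t0 x0 S b.1) b.2) η b.1 (ps d t0 x0 S b.1) b.2 (ps d t0 x0 S b.2) else 0) /
        den b (ps d t0 x0 S b.1) (ps d t0 x0 S b.2) η := by
    unfold rU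
    simp only [sum_div]
    rw [sum_comm]
    refine sum_congr rfl fun z _ => ?_
    split_ifs
    · rfl
    · simp
  rw [e1]
  unfold rR
  rw [mul_sum]
  refine sum_le_sum fun b hb => ?_
  rw [← mul_div_assoc]
  refine div_le_div_of_nonneg_right ?_ (h.den_nonneg hb _ _ _)
  have e2 : ∀ z ∈ Z, (if η ∈ (c z).Reg μ s d' P A then
      Kc μ s d' (CU d' P Φ (c z) b.1 (ps d t0 x0 S b.1) b.2) η b.1 (ps d t0 x0 S b.1) b.2 (ps d t0 x0 S b.2) else 0) =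
      ∑ S' ∈ (pcs d' b.1 (ps d t0 x0 S b.1) b.2 (ps d t0 x0 S b.2)).filter (CR d' P Φ b.1 (ps d t0 x0 S b.1) b.2),
        pw μ s d' η b.1 (ps d t0 x0 S b.1) b.2 S' * (if η ∈ (c z).Reg μ s d' P A ∧
        (ps d' b.1 (ps d t0 x0 S b.1) S' (c z).t0, ps d' b.1 (ps d t0 x0 S b.1) S' (c z).t3) ∈ (c z).U then 1 else 0) := by
    intro z _
    split_ifs with hη
    · unfold Kc
      have : (pcs d' b.1 (ps d t0 x0 S b.1) b.2 (ps d t0 x0 S b.2)).filter (CU d' P Φ (c z) b.1 (ps d t0 x0 S b.1) b.2) =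
          ((pcs d' b.1 (ps d t0 x0 S b.1) b.2 (ps d t0 x0 S b.2)).filter (CR d' P Φ b.1 (ps d t0 x0 S b.1) b.2)).filter
          fun S' => (ps d' b.1 (ps d t0 x0 S b.1) S' (c z).t0, ps d' b.1 (ps d t0 x0 S b.1) S' (c z).t3) ∈ (c z).U := by
        rw [filter_filter]
        ext S'
        simp only [mem_filter]
        exact Iff.rfl
      rw [this, sum_filter]
      refine sum_congr rfl fun S' _ => ?_
      by_cases hU : (ps d' b.1 (ps d t0 x0 S b.1) S' (c z).t0, ps d' b.1 (ps d t0 x0 S b.1) S' (c z).t3) ∈ (c z).U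
      · simp [hU, hη]
      · simp [hU]
    · symm
      refine sum_eq_zero fun S' _ => ?_
      rw [if_neg fun h => hη h.1, mul_zero]
  rw [sum_congr rfl e2, sum_comm]
  unfold Kc
  rw [mul_sum]
  refine sum_le_sum fun S' hS' => ?_
  rw [mem_filter, mem_pcs] at hS'
  have h3 := hn b hb S' hS'.1.1 hS'.1.2 hS'.2
  rw [← mul_sum, sum_boole, mul_comm]
  exact mul_le_mul_of_nonneg_left (by exact_mod_cast h3) (pw_nonneg _ _ _ _ _ _)

open scoped Classical in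
/-- The index set: paths which avoid the window, of positive ratio. -/
def Pth (μ : Measure ℝ) (s : ℝ) (d d' : ℕ → ℤ) (P : ℕ → ℤ → Prop) (Φ : (ℕ → ℤ) → Prop) (B : Finset (ℕ × ℕ))
    (den : ℕ × ℕ → ℤ → ℤ → Env → ℝ) (t0 : ℕ) (x0 : ℤ) (N : ℕ) (y0 : ℤ) (J : Finset ℕ) (D : ℕ → Finset ℤ) : Finset (Finset ℕ) :=
  (pcs d t0 x0 N y0).filter fun S => Avo d J D t0 x0 N S ∧ ∀ η : Env, 0 < rR μ s d d' P Φ B den t0 x0 S η

theorem rR_meas (hdm : ∀ b ∈ B, ∀ x y, Measurable (den b x y)) (S : Finset ℕ) :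
    Measurable (rR μ s d d' P Φ B den t0 x0 S) := by
  unfold rR
  exact Finset.measurable_sum _ fun b hb => (Kc_meas d' _ _ _ _ _).div (hdm b hb _ _)

theorem CDat.dlr (h : CDat μ s d d' P Φ B den t0 x0 N y0 J D a Z c t p) :
    Dlr μ (Pth μ s d d' P Φ B den t0 x0 N y0 J D) Z p t (fun z => (c z).T) (fun z η => (c z).K μ s d' η) a
      (fun S η => pw μ s d η t0 x0 N S) (fun η => Kf μ s d η t0 x0 N y0) (fun S η => rR μ s d d' P Φ B den t0 x0 S η)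
      (fun S z η => rO μ s d d' P Φ B den t0 x0 (c z) S η) (fun S z η => rQ μ s d d' P Φ B den t0 x0 (c z) S η) := by
  classical
  have hsubc : ∀ z ∈ Z, ∀ v : Pt, v ∈ ((sJ J D : Set Pt)ᶜ) → v ∈ (((c z).T : Set Pt)ᶜ) := by
    intro z hz v hv hv'
    exact hv (h.sub z hz hv')
  constructor
  · exact h.p0
  · exact h.disj
  · intro z _
    unfold Cel.K Kcell KP
    exact Kc_meas d' _ _ _ _ _
  · intro z _ η η' hh
    exact Kcell_env d' _ _ _ _ _ fun v hv => hh v hv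
  · intro z _ η η' hh
    show (c z).K μ s d' η ≤ (c z).K μ s d' η'
    unfold Cel.K Kcell KP
    exact Kc_mono d' _ _ _ _ _ hh
  · exact h.prob
  · exact fun S _ => h.am S
  · exact fun S _ => h.a0 S
  · exact fun S _ => h.a1 S
  · exact fun S _ => pw_meas d t0 x0 N S
  · exact fun S _ η => pw_nonneg _ _ _ _ _ _
  · intro S hS z hz η η' hh
    have hA := (mem_filter.1 hS).2.1
    have e1 : a S η = a S η' := h.ad S fun v hv => hh v (hsubc z hz v hv)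
    have e2 : pw μ s d η t0 x0 N S = pw μ s d η' t0 x0 N S := by
      refine pw_env d t0 x0 N S fun t ht => hh _ fun hv => ?_
      have hv' := h.sub z hz hv
      rw [mem_sJ] at hv'
      exact hA t hv'.1 ht hv'.2
    show a S η * pw μ s d η t0 x0 N S = a S η' * pw μ s d η' t0 x0 N S
    rw [e1, e2]
  · exact Kf_meas d t0 x0 N y0
  · exact fun η => sum_pos (fun S _ => pw_pos _ _ _ _ _ _) h.hne
  · exact fun η η' hh => Kf_mono d t0 x0 N y0 hh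
  · exact fun η => sum_le_sum_of_subset_of_nonneg (filter_subset _ _) fun _ _ _ => pw_nonneg _ _ _ _ _ _
  · exact fun S _ => rR_meas h.dm S
  · exact fun S hS => (mem_filter.1 hS).2.2
  · intro S _ z _
    exact Finset.measurable_sum _ fun b hb => (Oc_meas d' _ _ _ _ _ _ _).div (h.dm b hb _ _)
  · exact fun S _ z _ η => h.rO_nonneg _ S η
  · intro S _ z hz η η' hh
    refine sum_congr rfl fun b hb => ?_
    have e1 : den b (ps d t0 x0 S b.1) (ps d t0 x0 S b.2) η = den b (ps d t0 x0 S b.1) (ps d t0 x0 S b.2) η' :=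
      h.dd b hb _ _ fun v hv => hh v (hsubc z hz v hv)
    rw [e1, Oc_env d' P Φ (h.ok z hz) (fun v hv => hh v hv)]
  · intro S _ z hz η η' h1 h2
    refine sum_le_sum fun b hb => ?_
    have e1 : den b (ps d t0 x0 S b.1) (ps d t0 x0 S b.2) η = den b (ps d t0 x0 S b.1) (ps d t0 x0 S b.2) η' :=
      h.dd b hb _ _ fun v hv => h2 v (hsubc z hz v hv)
    rw [e1]
    exact div_le_div_of_nonneg_right (Kc_mono d' _ _ _ _ _ h1) (h.den_nonneg hb _ _ _)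
  · exact fun S _ z hz η => h.rR_eq hz S η

theorem mas_le_one (hne : (pcs d t0 x0 N y0).Nonempty) {a : Finset ℕ → Env → ℝ} (ha1 : ∀ S η, a S η ≤ 1) (η : Env) :
    mas μ s d t0 x0 N y0 a η ≤ 1 := by
  have h0 : 0 < Kf μ s d η t0 x0 N y0 := sum_pos (fun S _ => pw_pos _ _ _ _ _ _) hne
  have h1 : mas μ s d t0 x0 N y0 a η ≤ ∑ S ∈ pcs d t0 x0 N y0, pw μ s d η t0 x0 N S / Kf μ s d η t0 x0 N y0 := by
    refine sum_le_sum fun S _ => ?_
    exact mul_le_of_le_one_left (div_nonneg (pw_nonneg _ _ _ _ _ _) h0.le) (ha1 S η)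
  refine h1.trans (le_of_eq ?_)
  rw [← sum_div]
  exact div_self h0.ne'

theorem mas_nonneg (d : ℕ → ℤ) (t0 : ℕ) (x0 : ℤ) (N : ℕ) (y0 : ℤ) {a : Finset ℕ → Env → ℝ} (ha0 : ∀ S η, 0 ≤ a S η) (η : Env) :
    0 ≤ mas μ s d t0 x0 N y0 a η :=
  sum_nonneg fun S _ => mul_nonneg (ha0 S η) (div_nonneg (pw_nonneg _ _ _ _ _ _) (Kf_nonneg _ _ _ _ _ _))

theorem mas_meas (d : ℕ → ℤ) (t0 : ℕ) (x0 : ℤ) (N : ℕ) (y0 : ℤ) {a : Finset ℕ → Env → ℝ} (ham : ∀ S, Measurable (a S)) :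
    Measurable (mas μ s d t0 x0 N y0 a) :=
  Finset.measurable_sum _ fun S _ => (ham S).mul ((pw_meas d t0 x0 N S).div (Kf_meas d t0 x0 N y0))

theorem ntR_meas (hdm : ∀ b ∈ B, ∀ x y, Measurable (den b x y)) (M : ℝ) (S : Finset ℕ) :
    MeasurableSet (ntR μ s d d' P Φ B den t0 x0 M S) := by
  have h1 := rR_meas (μ := μ) (s := s) (d := d) (d' := d') (P := P) (Φ := Φ) (t0 := t0) (x0 := x0) hdm S
  exact (measurableSet_le measurable_const h1).inter (measurableSet_le h1 measurable_const)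

variable [IsProbabilityMeasure μ]

open scoped Classical in
/-- **(DL) with cells, on the event `E`.** If on `E` every piece of the class meets at least `n` regular cells, the near ties of the paths
are decoupled: their mass is at most `C √#cells / (n · luck)` times the mass of the event. -/
theorem cell_E (h : CDat μ s d d' P Φ B den t0 x0 N y0 J D a Z c t p) {M A u : ℝ} (hM : 0 < M) (hA : A ≤ t) (hu : 0 ≤ u)
    {E : Set Env} (hE : MeasurableSet E) {n : ℕ}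
    (hn : ∀ η ∈ E, ∀ S ∈ pcs d t0 x0 N y0, a S η ≠ 0 → η ∈ ntR μ s d d' P Φ B den t0 x0 M S →
      ∀ b ∈ B, ∀ S' ⊆ Ico b.1 b.2, ps d' b.1 (ps d t0 x0 S b.1) S' b.2 = ps d t0 x0 S b.2 →
      CR d' P Φ b.1 (ps d t0 x0 S b.1) b.2 S' →
      n ≤ #(Z.filter fun z => η ∈ (c z).Reg μ s d' P A ∧
        (ps d' b.1 (ps d t0 x0 S b.1) S' (c z).t0, ps d' b.1 (ps d t0 x0 S b.1) S' (c z).t3) ∈ (c z).U)) :
    n * min (t - A) M / (4 * M) * ∫ η in E, mas μ s d t0 x0 N y0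
        (fun S η => a S η * (ntR μ s d d' P Φ B den t0 x0 M S).indicator (fun _ => (1 : ℝ)) η) η ∂(law μ) ≤
      (1 / p) * Real.sqrt #Z * (u * ∫ η, mas μ s d t0 x0 N y0 a η ∂(law μ) + Real.exp (1 - u)) := by
  have hD := h.dlr
  have hPsub : Pth μ s d d' P Φ B den t0 x0 N y0 J D ⊆ pcs d t0 x0 N y0 := filter_subset _ _
  have hlog : ∀ S ∈ Pth μ s d d' P Φ B den t0 x0 N y0 J D, ∀ η : Env,
      |Real.log (rR μ s d d' P Φ B den t0 x0 S η)| ≤ M ↔ η ∈ ntR μ s d d' P Φ B den t0 x0 M S := by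
    intro S hS η
    have hr := (mem_filter.1 hS).2.2 η
    rw [abs_le]
    unfold ntR
    show _ ↔ Real.exp (-M) ≤ rR μ s d d' P Φ B den t0 x0 S η ∧ rR μ s d d' P Φ B den t0 x0 S η ≤ Real.exp M
    rw [← Real.le_log_iff_exp_le hr, ← Real.log_le_iff_le_exp hr]
  have hGa : ∀ η ∈ E, ∀ S ∈ Pth μ s d d' P Φ B den t0 x0 N y0 J D, a S η ≠ 0 →
      |Real.log (rR μ s d d' P Φ B den t0 x0 S η)| ≤ M →
      n * min (t - A) M ≤ ∑ z ∈ Z, min (Real.log (rsh t (fun z η => (c z).K μ s d' η)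
        (fun S η => rR μ s d d' P Φ B den t0 x0 S η) (fun S z η => rO μ s d d' P Φ B den t0 x0 (c z) S η) S z η) -
        Real.log (rR μ s d d' P Φ B den t0 x0 S η)) M := by
    intro η hη S hS haS hr
    have hR := (mem_filter.1 hS).2.2 η
    have hsum := h.sum_rU (hn η hη S (hPsub hS) haS ((hlog S hS η).1 hr))
    have hm0 : 0 ≤ min (t - A) M := le_min (by linarith) hM.le
    have hterm : ∀ z ∈ Z, (if η ∈ (c z).Reg μ s d' P A then rU μ s d d' P Φ B den t0 x0 (c z) S η else 0) /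
        rR μ s d d' P Φ B den t0 x0 S η * min (t - A) M ≤ min (Real.log (rsh t (fun z η => (c z).K μ s d' η)
        (fun S η => rR μ s d d' P Φ B den t0 x0 S η) (fun S z η => rO μ s d d' P Φ B den t0 x0 (c z) S η) S z η) -
        Real.log (rR μ s d d' P Φ B den t0 x0 S η)) M := by
      intro z hz
      have hge : 0 ≤ Real.log (rsh t (fun z η => (c z).K μ s d' η)
        (fun S η => rR μ s d d' P Φ B den t0 x0 S η) (fun S z η => rO μ s d d' P Φ B den t0 x0 (c z) S η) S z η) -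
        Real.log (rR μ s d d' P Φ B den t0 x0 S η) := by
        rw [sub_nonneg]
        exact Real.log_le_log hR (hD.le_rsh hS hz η)
      split_ifs with hreg
      · obtain ⟨h1, h2⟩ := h.rU_le hz S hreg
        have h3 := h.rU_nonneg (c z) S η
        have h4 := h.rU_le_rR (c z) S η
        have h5 := gain_num (t := t) hR (h.rO_nonneg (c z) S η) h3 h4 h1 h2
        have hth0 : 0 ≤ rU μ s d d' P Φ B den t0 x0 (c z) S η / rR μ s d d' P Φ B den t0 x0 S η := div_nonneg h3 hR.le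
        have hth1 : rU μ s d d' P Φ B den t0 x0 (c z) S η / rR μ s d d' P Φ B den t0 x0 S η ≤ 1 := (div_le_one hR).2 h4
        refine le_min ?_ ?_
        · exact (mul_le_mul_of_nonneg_left (min_le_left _ _) hth0).trans h5
        · exact (mul_le_of_le_one_left hm0 hth1).trans (min_le_right _ _)
      · rw [zero_div, zero_mul]
        exact le_min hge hM.le
    refine le_trans ?_ (sum_le_sum hterm)
    rw [← sum_mul, ← sum_div]
    refine mul_le_mul_of_nonneg_right ?_ hm0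
    rw [le_div_iff₀ hR]
    exact hsum
  have hmain := hD.main hM hE hGa u
  have hw0 : ∀ (S : Finset ℕ) (η : Env), 0 ≤ pw μ s d η t0 x0 N S / Kf μ s d η t0 x0 N y0 := fun S η =>
    div_nonneg (pw_nonneg _ _ _ _ _ _) (Kf_nonneg _ _ _ _ _ _)
  -- the left side
  have eL : ∀ η, mas μ s d t0 x0 N y0
        (fun S η => a S η * (ntR μ s d d' P Φ B den t0 x0 M S).indicator (fun _ => (1 : ℝ)) η) η =
      Hs (Pth μ s d d' P Φ B den t0 x0 N y0 J D) a (fun S η => pw μ s d η t0 x0 N S) (fun η => Kf μ s d η t0 x0 N y0)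
        (fun S η => if |Real.log (rR μ s d d' P Φ B den t0 x0 S η)| ≤ M then 1 else 0) η := by
    intro η
    unfold mas Hs
    rw [← sum_subset hPsub]
    · refine sum_congr rfl fun S hS => ?_
      beta_reduce
      by_cases hr : η ∈ ntR μ s d d' P Φ B den t0 x0 M S
      · rw [if_pos ((hlog S hS η).2 hr), Set.indicator_of_mem hr]
        ring
      · rw [if_neg fun h' => hr ((hlog S hS η).1 h'), Set.indicator_of_notMem hr]
        ring
    · intro S hS hS'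
      beta_reduce
      by_cases hav : Avo d J D t0 x0 N S
      · have hr : ¬ ∀ η : Env, 0 < rR μ s d d' P Φ B den t0 x0 S η := fun h' => hS' (mem_filter.2 ⟨hS, hav, h'⟩)
        have hr' := (rR_pos_or (μ := μ) (s := s) d d' P Φ h.dz t0 x0 S).resolve_left hr
        rw [Set.indicator_of_notMem, mul_zero, zero_mul]
        intro hm
        have h1 : Real.exp (-M) ≤ rR μ s d d' P Φ B den t0 x0 S η := hm.1
        rw [hr' η] at h1
        exact absurd h1 (not_le.2 (Real.exp_pos _))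
      · rw [h.av S hS hav η, zero_mul, zero_mul]
  simp only [eL]
  refine hmain.trans ?_
  have hZ0 : 0 ≤ (1 / p) * Real.sqrt #Z := mul_nonneg (by have := h.p0; positivity) (Real.sqrt_nonneg _)
  refine mul_le_mul_of_nonneg_left (add_le_add ?_ le_rfl) hZ0
  refine mul_le_mul_of_nonneg_left ?_ hu
  have hi1 : Integrable (mas μ s d t0 x0 N y0 a) (law μ) := by
    refine bdd_integrable (mas_meas d t0 x0 N y0 h.am) (B := 1) fun η => ?_
    rw [abs_of_nonneg (mas_nonneg d t0 x0 N y0 h.a0 η)]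
    exact mas_le_one h.hne h.a1 η
  refine integral_mono_of_nonneg (Filter.Eventually.of_forall fun η => hD.Hs_nonneg fun S _ => ramp_nonneg _ _) hi1
    (Filter.Eventually.of_forall fun η => ?_)
  show Hs _ _ _ _ _ _ ≤ mas μ s d t0 x0 N y0 a η
  unfold Hs mas
  refine le_trans (sum_le_sum (g := fun S => a S η * (pw μ s d η t0 x0 N S / Kf μ s d η t0 x0 N y0)) fun S hS => ?_)
    (sum_le_sum_of_subset_of_nonneg hPsub fun S _ _ => mul_nonneg (h.a0 S η) (hw0 S η))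
  have h1 := ramp_le_one M (Real.log (rR μ s d d' P Φ B den t0 x0 S η))
  have h2 : 0 ≤ a S η * pw μ s d η t0 x0 N S / Kf μ s d η t0 x0 N y0 :=
    div_nonneg (mul_nonneg (h.a0 S η) (pw_nonneg _ _ _ _ _ _)) (Kf_nonneg _ _ _ _ _ _)
  calc a S η * pw μ s d η t0 x0 N S / Kf μ s d η t0 x0 N y0 * ramp M (Real.log (rR μ s d d' P Φ B den t0 x0 S η)) ≤
        a S η * pw μ s d η t0 x0 N S / Kf μ s d η t0 x0 N y0 * 1 := mul_le_mul_of_nonneg_left h1 h2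
    _ = _ := by ring

open scoped Classical in
/-- **(DL) with cells.** -/
theorem cell_dl (h : CDat μ s d d' P Φ B den t0 x0 N y0 J D a Z c t p) {M A u : ℝ} (hM : 0 < M) (hA : A < t) (hu : 0 ≤ u)
    {E : Set Env} (hE : MeasurableSet E) {n : ℕ} (hn0 : 0 < n)
    (hn : ∀ η ∈ E, ∀ S ∈ pcs d t0 x0 N y0, a S η ≠ 0 → η ∈ ntR μ s d d' P Φ B den t0 x0 M S →
      ∀ b ∈ B, ∀ S' ⊆ Ico b.1 b.2, ps d' b.1 (ps d t0 x0 S b.1) S' b.2 = ps d t0 x0 S b.2 →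
      CR d' P Φ b.1 (ps d t0 x0 S b.1) b.2 S' →
      n ≤ #(Z.filter fun z => η ∈ (c z).Reg μ s d' P A ∧
        (ps d' b.1 (ps d t0 x0 S b.1) S' (c z).t0, ps d' b.1 (ps d t0 x0 S b.1) S' (c z).t3) ∈ (c z).U)) :
    ∫ η, mas μ s d t0 x0 N y0
        (fun S η => a S η * (ntR μ s d d' P Φ B den t0 x0 M S).indicator (fun _ => (1 : ℝ)) η) η ∂(law μ) ≤
      4 * M / (n * min (t - A) M) * ((1 / p) * Real.sqrt #Z * (u * ∫ η, mas μ s d t0 x0 N y0 a η ∂(law μ) +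
        Real.exp (1 - u))) + (law μ).real Eᶜ := by
  have h1 := cell_E h hM hA.le hu hE hn
  have hm0 : 0 < min (t - A) M := lt_min (by linarith) hM
  have hn' : (0 : ℝ) < n := by exact_mod_cast hn0
  set f : Env → ℝ := mas μ s d t0 x0 N y0
        (fun S η => a S η * (ntR μ s d d' P Φ B den t0 x0 M S).indicator (fun _ => (1 : ℝ)) η) with hf
  have hind0 : ∀ (S : Finset ℕ) (η : Env), 0 ≤ (ntR μ s d d' P Φ B den t0 x0 M S).indicator (fun _ => (1 : ℝ)) η :=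
    fun S η => Set.indicator_nonneg (fun _ _ => zero_le_one) η
  have hind1 : ∀ (S : Finset ℕ) (η : Env), (ntR μ s d d' P Φ B den t0 x0 M S).indicator (fun _ => (1 : ℝ)) η ≤ 1 :=
    fun S η => Set.indicator_le_self' (fun _ _ => zero_le_one) η
  have hf0 : ∀ η, 0 ≤ f η := fun η => mas_nonneg d t0 x0 N y0 (fun S η => mul_nonneg (h.a0 S η) (hind0 S η)) η
  have hf1 : ∀ η, f η ≤ 1 := fun η => mas_le_one h.hne (fun S η => by
    have h2 := mul_le_mul (h.a1 S η) (hind1 S η) (hind0 S η) zero_le_one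
    rwa [one_mul] at h2) η
  have hfm : Measurable f := mas_meas d t0 x0 N y0 fun S => (h.am S).mul
    (measurable_const.indicator (ntR_meas h.dm M S))
  have hfi : Integrable f (law μ) := bdd_integrable hfm (B := 1) fun η => by
    rw [abs_of_nonneg (hf0 η)]
    exact hf1 η
  have h2 : ∫ η, f η ∂(law μ) = ∫ η in E, f η ∂(law μ) + ∫ η in Eᶜ, f η ∂(law μ) := (integral_add_compl hE hfi).symm
  have h3 : ∫ η in Eᶜ, f η ∂(law μ) ≤ (law μ).real Eᶜ := by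
    have h4 : ∫ η in Eᶜ, f η ∂(law μ) ≤ ∫ _η in Eᶜ, (1 : ℝ) ∂(law μ) :=
      setIntegral_mono hfi.integrableOn (integrable_const (1 : ℝ)).integrableOn hf1
    rw [setIntegral_const, smul_eq_mul, mul_one] at h4
    exact h4
  have h5 : ∫ η in E, f η ∂(law μ) ≤ 4 * M / (n * min (t - A) M) * ((1 / p) * Real.sqrt #Z *
      (u * ∫ η, mas μ s d t0 x0 N y0 a η ∂(law μ) + Real.exp (1 - u))) := by
    have h6 := mul_le_mul_of_nonneg_left h1 (show 0 ≤ 4 * M / (n * min (t - A) M) by positivity)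
    refine le_trans (le_of_eq ?_) h6
    field_simp
  show ∫ η, f η ∂(law μ) ≤ _
  rw [h2]
  exact add_le_add h5 h3

end

end Pool.Agent.W_7d29a1_Z37
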